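import Pool.Agent.Run7.h741.MF.Inst
import Pool.Agent.Run7.h555.P15.Lb

/-!
The inputs of the general theorem on the central values of the twists.
-/

set_option autoImplicit false

open UpperHalfPlane MatrixGroups CongruenceSubgroup Filter Topology MeasureTheory
open scoped ModularForm Pointwise

namespace Pool.Agent.Run7.h741.MF

open Pool.Agent.W97.MT (ap)

/-- the boundary values -/
theorem bd15 : Run7.h555.P15.Bd (N := 15) form15 II := by
  intro q _ hq u
  have hn : (0 : ℤ) < q := by
    have := Nat.pos_of_ne_zero (NeZero.ne q)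
    exact_mod_cast this
  have hun : IsCoprime ((((u : ZMod q).val : ℕ)) : ℤ) (q : ℤ) :=
    Nat.isCoprime_iff_coprime.2 (ZMod.val_coe_unit_coprime u)
  have h15 : IsCoprime (q : ℤ) 15 := by
    have := Nat.isCoprime_iff_coprime.2 hq
    exact_mod_cast this
  have h := prim_lim hn hun h15
  push_cast at h ⊢
  exact h

/-- the facts on the form -/
theorem facts15 (htors : S_TORS) (hlat : S_LAT)
    (good : ∀ l : ℕ, l.Prime → ¬ l ∣ 15 → |(ap E15 l : ℝ)| ≤ 2 * Real.sqrt l)
    (bad : ∀ l : ℕ, l.Prime → l ∣ 15 → |(ap E15 l : ℝ)| ≤ 1) :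
    Run7.h555.P15.Facts 15 form15 (ap E15) where
  int := (facts htors hlat).1
  one := (facts htors hlat).2.1
  pr := (facts htors hlat).2.2.1
  hecke := (facts htors hlat).2.2.2
  fricke := fricke
  good := good
  bad := bad

end Pool.Agent.Run7.h741.MF
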