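import Pool.Agent.Run7.h741.MF.Dim
import Pool.Agent.Run7.h741.MF.Lat
import Pool.Agent.W97.MT.Coef

/-!
Coefficients and Hecke eigenvalues.
-/

set_option autoImplicit false

open UpperHalfPlane MatrixGroups CongruenceSubgroup Filter Topology
open scoped ModularForm Pointwise

namespace Pool.Agent.Run7.h741.MF

open Pool.Agent.W97.TW
open Pool.Agent.W97.MT (qq qq_ne norm_qq norm_qq_lt im_mul z_ne H_open QV iI iI_pos iI_eventually tendsto_qq
  S_QEXP S_INJ S_ODE S_SUB hasDerivAt_qq tpi_ne line_im line_re inv_I im_aux exists_qq dslope_analytic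
  qParam_one cusp_expansion ap Tr)

section coef

variable (hcp : S_CP) (hq : S_QEXP) {P : PowerSeries ℤ} (rP : W97.MT.Rep phi P)
include rP

lemma coeff_f15 (n : ℕ) : (qExpansion 1 (f15 hcp hq)).coeff n =
    ((PowerSeries.coeff n (PowerSeries.X * P) : ℤ) : ℂ) := by
  have h1 := ModularFormClass.qExpansion_coeff_unique
    (Γ := (Gamma0 15 : Subgroup (GL (Fin 2) ℝ))) (k := 2)
    (c := fun n => ((PowerSeries.coeff n (PowerSeries.X * P) : ℤ) : ℂ)) one_pos one_mem0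
    (f := f15 hcp hq) (fun τ => by
      have h2 : HasSum (fun n : ℕ => PowerSeries.coeff n (PowerSeries.map (Int.castRingHom ℂ)
        (PowerSeries.X * P)) * qq τ ^ n) (qq τ * phi (qq τ)) :=
          (W97.MT.Rep.X.mul rP) (qq τ) (norm_qq_lt τ.im_pos)
      simp only [PowerSeries.coeff_map, eq_intCast] at h2
      rw [f15_apply, ff_q]
      have h3 : Function.Periodic.qParam 1 (τ : ℂ) = qq τ := qParam_one τ
      rw [h3]
      simpa only [smul_eq_mul] using h2) n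
  exact h1.symm

lemma hecke_f15 (hP0 : PowerSeries.coeff 0 P = 1) {p : ℕ} (hp : p.Prime) (z : ℍ) :
    W97.MT.hecke 15 p (f15 hcp hq) z =
      ((PowerSeries.coeff (p - 1) P : ℤ) : ℂ) * (f15 hcp hq) z := by
  obtain ⟨c, hc⟩ := dim_one (heckeForm (f15 hcp hq) hp) hcp hq
  have h1 : ∀ z : ℍ, heckeT 15 2 p (f15 hcp hq) z = c * (f15 hcp hq) z := hc
  have h2 := hecke_rec (f15 hcp hq) hp.pos h1 1
  have h3 : A (f15 hcp hq) 1 = 1 := by
    unfold A
    rw [coeff_f15 hcp hq rP 1, show (1 : ℕ) = 0 + 1 by rfl, PowerSeries.coeff_succ_X_mul, hP0]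
    norm_num
  have h4 : A (f15 hcp hq) p = ((PowerSeries.coeff (p - 1) P : ℤ) : ℂ) := by
    unfold A
    rw [coeff_f15 hcp hq rP p]
    obtain ⟨m, rfl⟩ : ∃ m, p = m + 1 := ⟨p - 1, by have := hp.pos; omega⟩
    rw [PowerSeries.coeff_succ_X_mul]
    rfl
  have h5 : B (f15 hcp hq) p 1 = A (f15 hcp hq) p := by
    unfold B
    rw [if_neg (c := p ∣ 1) (fun h => hp.one_lt.ne' (Nat.dvd_one.1 h)), mul_zero, zero_add, mul_one]
  rw [h3, mul_one, h5, h4] at h2
  have h6 : W97.MT.hecke 15 p (f15 hcp hq) z = heckeT 15 2 p (f15 hcp hq) z := by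
    unfold W97.MT.hecke heckeT
    norm_num
  rw [h6, h1, h2]

end coef

/-- the formal identity -/
lemma formal (hcp : S_CP) (hq : S_QEXP) {Ξ P : PowerSeries ℤ} (rΞ : W97.MT.Rep xi Ξ)
    (rP : W97.MT.Rep phi P) :
    (PowerSeries.X * PowerSeries.derivative ℤ Ξ - 2 * Ξ) ^ 2 = P ^ 2 *
      (4 * Ξ ^ 3 - 7 * PowerSeries.X ^ 2 * Ξ ^ 2 - 36 * PowerSeries.X ^ 4 * Ξ) := by
  rw [num 2, num 4, num 7, num 36]
  refine ((rΞ.theta.sub ((W97.MT.Rep.C 2).mul rΞ)).pow 2).unique (((rP.pow 2).mul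
    ((((W97.MT.Rep.C 4).mul (rΞ.pow 3)).sub (((W97.MT.Rep.C 7).mul
    (W97.MT.Rep.X.pow 2)).mul (rΞ.pow 2))).sub (((W97.MT.Rep.C 36).mul
    (W97.MT.Rep.X.pow 4)).mul rΞ))).congr fun q hq1 => ?_)
  push_cast
  by_cases h0 : q = 0
  · rw [h0]; simp [xi_zero, phi_zero]; norm_num
  · obtain ⟨z, hz, rfl⟩ := exists_qq hq1 h0
    have h1 := g2_zero hcp hq z hz
    unfold g2 at h1
    rw [← R0_q rΞ hz, ← qq_X1 hz]
    linear_combination (qq z ^ 3 * phi (qq z)) ^ 2 * h1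

/-- the coefficient modulo `p` -/
lemma coeff_mod (hcp : S_CP) (hq : S_QEXP) (hasse : S_HASSE) {Ξ P : PowerSeries ℤ}
    (rΞ : W97.MT.Rep xi Ξ) (rP : W97.MT.Rep phi P) (tΞ : Tr Ξ lxi) (tP : Tr P lphi)
    {p : ℕ} (hp : p.Prime) (hp2 : p ≠ 2) :
    ((PowerSeries.coeff (p - 1) P : ℤ) : ZMod p) = (ap E15 p : ZMod p) := by
  have : Fact p.Prime := ⟨hp⟩
  have h1 := formal hcp hq rΞ rP
  have cΞ : PowerSeries.constantCoeff Ξ = 1 := by
    have := tΞ 0 (by norm_num)
    simpa [lxi] using this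
  have cP : PowerSeries.constantCoeff P = 1 := by
    have := tP 0 (by norm_num)
    simpa [lphi] using this
  have hu : IsUnit P := by
    rw [PowerSeries.isUnit_iff_constantCoeff, cP]; exact isUnit_one
  obtain ⟨V, hV⟩ := hu.exists_right_inv
  have cV : PowerSeries.constantCoeff V = 1 := by
    have := congrArg PowerSeries.constantCoeff hV
    rw [map_mul, cP, one_mul, map_one] at this
    exact this
  set σ : PowerSeries ℤ := (PowerSeries.X * PowerSeries.derivative ℤ Ξ - 2 * Ξ) * V with hσ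
  have h2 : PowerSeries.X * PowerSeries.derivative ℤ Ξ - 2 * Ξ = P * σ := by
    rw [hσ]
    linear_combination (-(PowerSeries.X * PowerSeries.derivative ℤ Ξ - 2 * Ξ)) * hV
  have h3 : σ ^ 2 = 4 * Ξ ^ 3 - 7 * PowerSeries.X ^ 2 * Ξ ^ 2 - 36 * PowerSeries.X ^ 4 * Ξ := by
    have e : (P * V) ^ 2 = 1 := by rw [hV, one_pow]
    rw [hσ]
    linear_combination V ^ 2 * h1 +
      (4 * Ξ ^ 3 - 7 * PowerSeries.X ^ 2 * Ξ ^ 2 - 36 * PowerSeries.X ^ 4 * Ξ) * e
  have cσ : PowerSeries.constantCoeff σ = -2 := by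
    rw [hσ]
    simp only [map_sub, map_mul, PowerSeries.constantCoeff_X, map_ofNat, cΞ, cV]
    norm_num
  set m := PowerSeries.map (Int.castRingHom (ZMod p)) with hm
  have hX : m PowerSeries.X = PowerSeries.X := PowerSeries.map_X _
  have hd : m (PowerSeries.derivative ℤ Ξ) = PowerSeries.derivative (ZMod p) (m Ξ) := by
    ext n
    simp [hm, PowerSeries.coeff_derivative]
  have h4 := congrArg m h2
  have h5 := congrArg m h3
  simp only [map_sub, map_add, map_mul, map_pow, hX, hd, map_ofNat] at h4 h5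
  have hcc : ∀ V : PowerSeries ℤ, PowerSeries.constantCoeff (m V) =
      ((PowerSeries.constantCoeff V : ℤ) : ZMod p) := by
    intro V
    rw [← PowerSeries.coeff_zero_eq_constantCoeff_apply, ← PowerSeries.coeff_zero_eq_constantCoeff_apply,
      hm, PowerSeries.coeff_map]
    simp
  have h6 := hasse p hp2 (m P) (m Ξ) (m σ)
    (by rw [hcc, cΞ]; simp)
    (by rw [hcc, cσ]; simp)
    h4 h5
  rw [← h6, hm, PowerSeries.coeff_map]
  simp

end Pool.Agent.Run7.h741.MF
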