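import Pool.Agent.Run7.h741.MF.Asm0
import Pool.Agent.Run7.h741.MF.Coef
import Pool.Agent.Run7.h741.MF.Sym2

/-!
The newform of level 15 and its coefficients.
-/

set_option autoImplicit false

open UpperHalfPlane MatrixGroups CongruenceSubgroup Filter Topology MeasureTheory
open scoped ModularForm Pointwise

namespace Pool.Agent.Run7.h741.MF

open Pool.Agent.W97.TW
open Pool.Agent.W97.MT (qq qq_ne norm_qq norm_qq_lt im_mul z_ne H_open QV iI iI_pos iI_eventually tendsto_qq
  S_QEXP S_INJ S_ODE S_SUB hasDerivAt_qq tpi_ne line_im line_re inv_I im_aux exists_qq dslope_analytic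
  qParam_one cusp_expansion ap affCount Tr prim)

/-- the newform `η(z)η(3z)η(5z)η(15z)` -/
noncomputable def form15 : CuspForm (Gamma0 15 : Subgroup (GL (Fin 2) ℝ)) 2 := f15 hcp hqe

lemma form15_of {w : ℂ} (hw : 0 < w.im) : form15 (ofComplex w) = ff w := by
  rw [ofComplex_apply_of_im_pos hw]; rfl

lemma line_eq (z : ℂ) (hz : 0 ≤ z.im) : Set.EqOn
    (fun t : ℝ => form15 (ofComplex (z + t * Complex.I))) (fun t : ℝ => ff (z + t * Complex.I))
    (Set.Ioi 0) := by
  intro t ht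
  have ht' : 0 < t := ht
  exact form15_of (by rw [line_im]; linarith)

lemma prim_eq (z : ℂ) (hz : 0 ≤ z.im) :
    prim form15 z = 2 * Real.pi * ∫ t in Set.Ioi (0 : ℝ), ff (z + t * Complex.I) := by
  unfold prim
  rw [setIntegral_congr_fun measurableSet_Ioi (line_eq z hz)]

lemma prim_rat (r : ℚ) : prim form15 (r : ℂ) = II r := prim_eq _ (by simp)

lemma prim_H (z : ℍ) : prim form15 z = F z := by
  rw [prim_eq _ z.im_pos.le]
  exact (F_int z.im_pos).symm

lemma ff_ne_zero : ∃ z : ℍ, form15 z ≠ 0 := ⟨UpperHalfPlane.I, ff_ne UpperHalfPlane.I.im_pos⟩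

/-- integrability on the vertical half-lines over the rational numbers -/
lemma int_ff (r : ℚ) : IntegrableOn (fun t : ℝ => ff ((r : ℂ) + t * Complex.I)) (Set.Ioi 0) := by
  have key : ∀ {m j : ℂ → ℂ} (_ : IsMap m j) {C : ℂ} (_ : Tendsto (fun z => F (m z)) iI (𝓝 C))
      (r : ℚ), Hit (r : ℂ) m → IntegrableOn (fun t : ℝ => ff ((r : ℂ) + t * Complex.I)) (Set.Ioi 0) := by
    intro m j h C hC r hr
    exact (hit_prim h hcp hqe hC (by simp) hr).1
  obtain ⟨C15, l15⟩ := exists_limit hcp hqe (isCusp15 hcp hqe).map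
  obtain ⟨C5, l5⟩ := exists_limit hcp hqe (isCusp5 hcp hqe).map
  obtain ⟨C3, l3⟩ := exists_limit hcp hqe cusp3.map
  rcases exists_hit r with h | h | h | h
  · exact key (isCusp15 hcp hqe).map l15 r h
  · exact key (isCusp5 hcp hqe).map l5 r h
  · exact key cusp3.map l3 r h
  · exact key idMap F_QV.tendsto r h

lemma int_rat (r : ℚ) :
    IntegrableOn (fun t : ℝ => form15 (ofComplex ((r : ℂ) + t * Complex.I))) (Set.Ioi 0) :=
  (int_ff r).congr_fun (line_eq _ (by simp)).symm measurableSet_Ioi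

/-- an integer multiple of a point of order four -/
lemma four_dvd (L : PeriodPair) (x : ℂ) (h1 : x ∉ L.lattice) (h2 : 2 * x ∉ L.lattice)
    (h4 : 4 * x ∈ L.lattice) (n : ℤ) (hn : (n : ℂ) * x ∈ L.lattice) : (4 : ℤ) ∣ n := by
  have key : ∀ m k : ℤ, (m : ℂ) * x ∈ L.lattice → ((k * m : ℤ) : ℂ) * x ∈ L.lattice := by
    intro m k hm
    have := L.lattice.smul_mem k hm
    rw [zsmul_eq_mul] at this
    push_cast
    rwa [mul_assoc]
  have h4' : ((4 : ℤ) : ℂ) * x ∈ L.lattice := by exact_mod_cast h4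
  have hr : ((n % 4 : ℤ) : ℂ) * x ∈ L.lattice := by
    have h1 := sub_mem hn (key 4 (n / 4) h4')
    have h2 : ((n % 4 : ℤ) : ℂ) * x = (n : ℂ) * x - ((n / 4 * 4 : ℤ) : ℂ) * x := by
      have : (n % 4 : ℤ) = n - n / 4 * 4 := by omega
      rw [this]; push_cast; ring
    rw [h2]; exact h1
  have hn1 : ¬ ((1 : ℤ) : ℂ) * x ∈ L.lattice := by simpa using h1
  have hn2 : ¬ ((2 : ℤ) : ℂ) * x ∈ L.lattice := by exact_mod_cast h2
  have hcases : n % 4 = 0 ∨ n % 4 = 1 ∨ n % 4 = 2 ∨ n % 4 = 3 := by omega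
  rcases hcases with h | h | h | h
  · omega
  · rw [h] at hr; exact absurd hr hn1
  · rw [h] at hr; exact absurd hr hn2
  · rw [h] at hr
    have := sub_mem h4' hr
    refine absurd ?_ hn1
    convert this using 1
    push_cast; ring

/-- the coefficients of the form and of the curve -/
theorem coef_eq (htors : S_TORS) (L : PeriodPair) (g2 : L.g₂ = 481 / 12) (g3 : L.g₃ = 4879 / 216)
    {P Ξ : PowerSeries ℤ} (rΞ : W97.MT.Rep xi Ξ) (rP : W97.MT.Rep phi P)
    (tΞ : Tr Ξ lxi) (tP : Tr P lphi) {l : ℕ} (hl : l.Prime) :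
    PowerSeries.coeff (l - 1) P = ap E15 l := by
  obtain ⟨m2, m3, m5, mb⟩ := hmin
  have hP0 : PowerSeries.coeff 0 P = 1 := by
    rw [tP 0 (by norm_num)]; rfl
  by_cases l2 : l = 2
  · subst l2
    rw [tP 1 (by norm_num)]
    unfold ap; rw [m2]; rfl
  by_cases l3 : l = 3
  · subst l3
    rw [tP 2 (by norm_num)]
    unfold ap; rw [m3]; rfl
  by_cases l5 : l = 5
  · subst l5
    rw [tP 4 (by norm_num)]
    unfold ap; rw [m5]; rfl
  have h5 : 5 ≤ l := by
    have := hl.two_le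
    by_contra h
    have : l = 4 := by omega
    rw [this] at hl
    norm_num at hl
  set A : ℤ := PowerSeries.coeff (l - 1) P with hA
  obtain ⟨i1, i2, i4, -, i7⟩ := integrals hcp hqe hode L g2 g3 hinj htors
  have hH : ∀ z : ℍ, W97.MT.hecke 15 l form15 z = (A : ℂ) * form15 z := fun z =>
    hecke_f15 hcp hqe rP hP0 hl z
  -- the bound
  have hb : |A| ≤ l + 1 := by
    have h1 := hsup 15 form15 ff_ne_zero l hl A hH
    rw [Complex.norm_intCast] at h1
    exact_mod_cast h1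
  -- modulo l
  have hmod : (l : ℤ) ∣ A - ap E15 l := by
    have h1 := coeff_mod hcp hqe hasse rΞ rP tΞ tP hl l2
    have h2 := (ZMod.intCast_eq_intCast_iff_dvd_sub _ _ _).1 h1
    have h3 := (dvd_neg (α := ℤ)).2 h2
    rwa [neg_sub] at h3
  -- modulo 4
  have hl15 : ¬ l ∣ 15 := by
    intro h
    have h1 : l ∣ 3 * 5 := by simpa using h
    rcases (Nat.Prime.dvd_mul hl).1 h1 with h2 | h2
    · exact l3 ((Nat.prime_dvd_prime_iff_eq hl Nat.prime_three).1 h2)
    · exact l5 ((Nat.prime_dvd_prime_iff_eq hl (by norm_num)).1 h2)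
  have h4A : (4 : ℤ) ∣ l + 1 - A := by
    apply four_dvd L (II 0) i1 i2 i4
    have h1 := hhint 15 l form15 A hl int_rat hH 0
    rw [if_neg hl15, prim_rat, prim_rat, mul_zero] at h1
    have h2 : ∀ b ∈ Finset.range l, prim form15 (((0 + b) / l : ℚ) : ℂ) - II 0 ∈ L.lattice := by
      intro b _
      rw [prim_rat]
      have hden : (((((0 : ℚ) + b) / l : ℚ).den : ℤ)) ∣ l := by
        have := Rat.den_dvd (b : ℤ) (l : ℤ)
        rw [zero_add]
        rwa [Rat.divInt_eq_div, Int.cast_natCast, Int.cast_natCast] at this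
      have hp : ∀ m : ℕ, m.Prime → l ≠ m → ¬ ((m : ℤ)) ∣ ((((0 : ℚ) + b) / l : ℚ).den : ℤ) := by
        intro m hm hlm h
        have h3 : (m : ℤ) ∣ l := h.trans hden
        have h4 : m ∣ l := by exact_mod_cast h3
        exact hlm ((Nat.prime_dvd_prime_iff_eq hm hl).1 h4).symm
      exact i7 _ (hp 3 Nat.prime_three l3) (hp 5 (by norm_num) l5)
    have h3 := sum_mem h2
    rw [Finset.sum_sub_distrib, Finset.sum_const, Finset.card_range, nsmul_eq_mul] at h3
    have h4 : ((l + 1 - A : ℤ) : ℂ) * II 0 =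
        -((∑ b ∈ Finset.range l, prim form15 (((0 + b) / l : ℚ) : ℂ)) - (l : ℂ) * II 0) := by
      push_cast at h1 ⊢
      linear_combination (-1 : ℂ) * h1
    rw [h4]
    exact neg_mem h3
  have h4E : (4 : ℤ) ∣ l + 1 - ap E15 l := by
    have h1 := hfour l hl l2 l3 l5
    have h2 : ((4 : ℕ) : ℤ) ∣ ((affCount E15 l + 1 : ℕ) : ℤ) := Int.natCast_dvd_natCast.2 h1
    unfold ap
    push_cast at h2
    convert h2 using 1
    ring
  have h4 : (4 : ℤ) ∣ A - ap E15 l := by omega
  have hE : |ap E15 l| ≤ l := by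
    have h1 := mb l hl
    unfold ap
    rw [abs_le]
    omega
  have hcop : IsCoprime (4 : ℤ) (l : ℤ) := by
    have h1 : Nat.Coprime 4 l := by
      rw [show 4 = 2 ^ 2 by norm_num]
      exact Nat.Coprime.pow_left 2 ((Nat.coprime_primes Nat.prime_two hl).2 (Ne.symm l2))
    exact_mod_cast Nat.isCoprime_iff_coprime.2 h1
  obtain ⟨k, hk⟩ := hcop.mul_dvd h4 hmod
  have hA' := abs_le.1 hb
  have hE' := abs_le.1 hE
  have hk0 : k = 0 := by
    have h1 : |A - ap E15 l| < 4 * l := by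
      rw [abs_lt]
      constructor <;> [linarith [hA'.1, hE'.2]; linarith [hA'.2, hE'.1]]
    rw [hk, abs_mul, abs_of_pos (by positivity : (0 : ℤ) < 4 * l)] at h1
    have h2 : |k| < 1 := by nlinarith [abs_nonneg k]
    exact Int.abs_lt_one_iff.1 h2
  rw [hk0, mul_zero] at hk
  linarith

end Pool.Agent.Run7.h741.MF
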