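import Pool.Agent.Run7.h741.MF.Opt
import Pool.Agent.Run7.h209.P15.M1
import Pool.Agent.Run7.h209.P15.M23
import Pool.Agent.W97.MT.Asm

/-!
Assembly, first part: the independent statements.
-/

set_option autoImplicit false

open UpperHalfPlane MatrixGroups CongruenceSubgroup Filter Topology MeasureTheory
open scoped ModularForm Pointwise

namespace Pool.Agent.Run7.h741.MF

open Pool.Agent.W97.TW

lemma hcp : S_CP := Run7.h209.P15.m_cp
lemma hqe : W97.MT.S_QEXP := Pool.Agent.W97.MT.hqe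
lemma hinj : W97.MT.S_INJ := Pool.Agent.W97.MT.hinj
lemma hode : W97.MT.S_ODE := Pool.Agent.W97.MT.hode
lemma hsub : W97.MT.S_SUB := Pool.Agent.W97.MT.hsub
lemma hsup : W97.MT.S_SUP := Pool.Agent.W97.MT.hsup
lemma hhint : W97.MT.S_HINT := Pool.Agent.W97.MT.hhint
lemma hasse : S_HASSE := Run7.h209.P15.m_hasse
lemma hfour : S_FOUR := Run7.h209.P15.m_four
lemma hmin : S_MIN := Run7.h209.P15.m_min

end Pool.Agent.Run7.h741.MF
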