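import Pool.Agent.Run7.h741.MF.Sym2

/-!
The sign of the constant.
-/

set_option autoImplicit false

open Filter Topology MeasureTheory Set

namespace Pool.Agent.Run7.h741.MF

open Pool.Agent.W97.TW
open Pool.Agent.W97.MT (qq qq_ne norm_qq norm_qq_lt im_mul z_ne H_open QV iI iI_pos iI_eventually
  tendsto_qq S_QEXP S_INJ S_ODE S_SUB hasDerivAt_qq tpi_ne line_im line_re inv_I im_aux frac_aux
  qq_conj)

lemma Q_sub_one {q : ℂ} (hq : ‖q‖ < 1) : ‖Q q - 1‖ ≤ Real.exp (‖q‖ / (1 - ‖q‖)) - 1 := by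
  have hsum : HasSum (fun i : ℕ => ‖-(q ^ (i + 1))‖) (‖q‖ / (1 - ‖q‖)) := by
    have h1 := (hasSum_geometric_of_lt_one (norm_nonneg q) hq).mul_left ‖q‖
    rw [← div_eq_mul_inv] at h1
    refine h1.congr_fun ?_ |> fun x => x
    intro i
    rw [norm_neg, norm_pow, pow_succ, mul_comm]
  have hm : Multipliable (fun i : ℕ => 1 + (-(q ^ (i + 1)))) :=
    multipliable_one_add_of_summable hsum.summable
  have hp := hm.hasProd
  have e : Q q = ∏' i : ℕ, (1 + (-(q ^ (i + 1)))) := by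
    unfold Q
    exact tprod_congr fun i => by ring
  rw [e]
  refine le_of_tendsto ((hp.sub_const 1).norm) (Eventually.of_forall fun s => ?_)
  refine (s.norm_prod_one_add_sub_one_le _).trans (sub_le_sub_right (Real.exp_le_exp.2 ?_) 1)
  exact sum_le_hasSum s (fun i _ => norm_nonneg _) hsum

lemma mul_sub_one {a b : ℂ} {A B : ℝ} (ha : ‖a - 1‖ ≤ Real.exp A - 1) (hb : ‖b - 1‖ ≤ Real.exp B - 1) :
    ‖a * b - 1‖ ≤ Real.exp (A + B) - 1 := by
  have e : a * b - 1 = (a - 1) * (b - 1) + ((a - 1) + (b - 1)) := by ring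
  rw [e, Real.exp_add]
  have h1 := norm_nonneg (a - 1)
  have h2 := norm_nonneg (b - 1)
  have h3 : ‖(a - 1) * (b - 1) + ((a - 1) + (b - 1))‖ ≤
      ‖a - 1‖ * ‖b - 1‖ + (‖a - 1‖ + ‖b - 1‖) := by
    refine (norm_add_le _ _).trans ?_
    rw [norm_mul]
    have := norm_add_le (a - 1) (b - 1)
    linarith
  have h4 : ‖a - 1‖ * ‖b - 1‖ ≤ (Real.exp A - 1) * (Real.exp B - 1) :=
    mul_le_mul ha hb h2 (h1.trans ha)
  nlinarith

lemma phi_sub_one {q : ℂ} (hq : ‖q‖ ≤ 2 / 5) : ‖phi q - 1‖ ≤ 4 * ‖q‖ := by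
  have h0 := norm_nonneg q
  have hpow : ∀ d : ℕ, d ≠ 0 → ‖q ^ d‖ < 1 := fun d hd => by
    rw [norm_pow]
    exact pow_lt_one₀ h0 (by linarith) hd
  have k1 := Q_sub_one (q := q) (by linarith)
  have k3 := Q_sub_one (hpow 3 (by norm_num))
  have k5 := Q_sub_one (hpow 5 (by norm_num))
  have k15 := Q_sub_one (hpow 15 (by norm_num))
  have k := mul_sub_one (mul_sub_one (mul_sub_one k1 k3) k5) k15
  have k' : ‖phi q - 1‖ ≤ _ := k
  refine k'.trans ?_
  simp only [norm_pow]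
  set x := ‖q‖ with hx
  have x2 : x ^ 2 ≤ 4 / 25 := by nlinarith
  have x3 : x ^ 3 ≤ 8 / 125 := by
    calc x ^ 3 ≤ (2 / 5) ^ 3 := pow_le_pow_left₀ h0 hq 3
      _ = _ := by norm_num
  have x4 : x ^ 4 ≤ 16 / 625 := by
    calc x ^ 4 ≤ (2 / 5) ^ 4 := pow_le_pow_left₀ h0 hq 4
      _ = _ := by norm_num
  have x5 : x ^ 5 ≤ 32 / 3125 := by
    calc x ^ 5 ≤ (2 / 5) ^ 5 := pow_le_pow_left₀ h0 hq 5
      _ = _ := by norm_num
  have x14 : x ^ 14 ≤ 1 / 10000 := by
    calc x ^ 14 ≤ (2 / 5) ^ 14 := pow_le_pow_left₀ h0 hq 14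
      _ ≤ _ := by norm_num
  have x15 : x ^ 15 ≤ 1 / 10000 := by
    calc x ^ 15 ≤ (2 / 5) ^ 15 := pow_le_pow_left₀ h0 hq 15
      _ ≤ _ := by norm_num
  have a1 : x / (1 - x) ≤ 5 / 3 * x := by
    rw [div_le_iff₀ (by linarith)]
    nlinarith
  have a3 : x ^ 3 / (1 - x ^ 3) ≤ 171 / 1000 * x := by
    rw [div_le_iff₀ (by linarith)]
    have : x ^ 3 = x * x ^ 2 := by ring
    nlinarith [mul_nonneg h0 (by linarith : (0:ℝ) ≤ 8/125 - x^3), mul_nonneg h0 (by linarith : (0:ℝ) ≤ 4/25 - x^2)]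
  have a5 : x ^ 5 / (1 - x ^ 5) ≤ 26 / 1000 * x := by
    rw [div_le_iff₀ (by linarith)]
    have : x ^ 5 = x * x ^ 4 := by ring
    nlinarith [mul_nonneg h0 (by linarith : (0:ℝ) ≤ 32/3125 - x^5), mul_nonneg h0 (by linarith : (0:ℝ) ≤ 16/625 - x^4)]
  have a15 : x ^ 15 / (1 - x ^ 15) ≤ 1 / 1000 * x := by
    rw [div_le_iff₀ (by linarith)]
    have : x ^ 15 = x * x ^ 14 := by ring
    nlinarith [mul_nonneg h0 (by linarith : (0:ℝ) ≤ 1/10000 - x^15), mul_nonneg h0 (by linarith : (0:ℝ) ≤ 1/10000 - x^14)]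
  have hE : x / (1 - x) + x ^ 3 / (1 - x ^ 3) + x ^ 5 / (1 - x ^ 5) + x ^ 15 / (1 - x ^ 15) ≤
      187 / 100 * x := by linarith
  have h5 : Real.exp (187 / 100 * x) ≤ 1 + 4 * x := by
    have e1 : Real.exp (187 / 100 * x) = Real.exp (187 / 200 * x) ^ 2 := by
      rw [← Real.exp_nat_mul]
      congr 1
      push_cast
      ring
    have e2 : Real.exp (187 / 200 * x) ≤ 1 / (1 - 187 / 200 * x) := by
      have h6 : 0 < 1 - 187 / 200 * x := by linarith
      have h7 := Real.one_sub_le_exp_neg (187 / 200 * x)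
      rw [Real.exp_neg] at h7
      have h8 := Real.exp_pos (187 / 200 * x)
      rw [le_div_iff₀ h6]
      have h9 : (1 - 187 / 200 * x) * Real.exp (187 / 200 * x) ≤
          (Real.exp (187 / 200 * x))⁻¹ * Real.exp (187 / 200 * x) :=
        mul_le_mul_of_nonneg_right h7 h8.le
      rw [inv_mul_cancel₀ h8.ne'] at h9
      linarith
    rw [e1]
    have h6 : 0 < 1 - 187 / 200 * x := by linarith
    have h8 := Real.exp_pos (187 / 200 * x)
    calc Real.exp (187 / 200 * x) ^ 2 ≤ (1 / (1 - 187 / 200 * x)) ^ 2 :=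
          pow_le_pow_left₀ h8.le e2 2
      _ ≤ 1 + 4 * x := by
        rw [div_pow, one_pow, div_le_iff₀ (by positivity)]
        have h9 : 0 ≤ x * ((2 / 5 - x) * (5 - 3 * x)) := by
          have : 0 ≤ 5 - 3 * x := by linarith
          have h10 : 0 ≤ 2 / 5 - x := by linarith
          positivity
        nlinarith [mul_nonneg h0 h0, mul_nonneg (mul_nonneg h0 h0) h0, mul_nonneg h0 (by linarith : (0:ℝ) ≤ 2/5 - x)]
  have h6 := Real.exp_le_exp.2 hE
  linarith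

/-- the primitive near `0` -/
lemma Phi_sub {q : ℂ} (hq : ‖q‖ ≤ 2 / 5) : ‖Phi q - q‖ ≤ 4 / 5 * ‖q‖ := by
  have h0 := norm_nonneg q
  have hder : ∀ s : ℝ, s ∈ Icc (0 : ℝ) 1 →
      HasDerivAt (fun s : ℝ => Phi (s * q) - s * q) (q * (phi (s * q) - 1)) s := by
    intro s hs
    have h1 : HasDerivAt (fun s : ℝ => (s : ℂ) * q) q s := by
      simpa using (Complex.ofRealCLM.hasDerivAt (x := s)).mul_const q
    have hn : ‖(s : ℂ) * q‖ < 1 := by
      rw [norm_mul, Complex.norm_real, Real.norm_of_nonneg hs.1]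
      nlinarith [hs.1, hs.2]
    have h2 := (Phi_deriv hn).comp s h1
    refine (h2.sub h1).congr_deriv ?_
    ring
  have key := image_norm_le_of_norm_deriv_right_le_deriv_boundary (a := 0) (b := 1)
    (f := fun s : ℝ => Phi (s * q) - s * q) (f' := fun s : ℝ => q * (phi (s * q) - 1))
    (B := fun s => 2 * ‖q‖ ^ 2 * s ^ 2) (B' := fun s => 4 * ‖q‖ ^ 2 * s)
    (fun s hs => (hder s hs).continuousAt.continuousWithinAt)
    (fun s hs => (hder s ⟨hs.1, hs.2.le⟩).hasDerivWithinAt)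
    (by simp [Phi_zero])
    (fun s => by
      have := (hasDerivAt_pow 2 s).const_mul (2 * ‖q‖ ^ 2)
      refine this.congr_deriv ?_
      push_cast
      ring)
    (fun s hs => by
      have hs1 := hs.1
      have hs2 := hs.2
      have hn : ‖(s : ℂ) * q‖ = s * ‖q‖ := by
        rw [norm_mul, Complex.norm_real, Real.norm_of_nonneg hs1]
      have h1 := phi_sub_one (q := (s : ℂ) * q) (by rw [hn]; nlinarith)
      rw [hn] at h1
      rw [norm_mul]
      nlinarith [mul_le_mul_of_nonneg_left h1 h0])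
    (x := 1) ⟨zero_le_one, le_rfl⟩
  simp only [Complex.ofReal_one, one_mul, one_pow, mul_one] at key
  refine key.trans ?_
  nlinarith

/-- the fixed point of `m5` -/
noncomputable def z5 : ℂ := 1 / 3 + ((1 / (3 * Real.sqrt 5) : ℝ) : ℂ) * Complex.I

lemma z5_im : z5.im = 1 / (3 * Real.sqrt 5) := by
  unfold z5
  have : (1 / 3 : ℂ) = (((1 / 3 : ℝ)) : ℂ) := by push_cast; rfl
  rw [this, line_im, Complex.ofReal_im, zero_add]

lemma z5_pos : 0 < z5.im := by
  rw [z5_im]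
  positivity

lemma z5_sq : (3 * z5 - 1) ^ 2 = -(1 / 5 : ℂ) := by
  have h5 : (Real.sqrt 5 : ℝ) ^ 2 = 5 := Real.sq_sqrt (by norm_num)
  have h5' : ((Real.sqrt 5 : ℝ) : ℂ) ^ 2 = 5 := by exact_mod_cast h5
  have h0 : ((Real.sqrt 5 : ℝ) : ℂ) ≠ 0 := by
    intro h
    rw [h] at h5'
    norm_num at h5'
  have e : 3 * z5 - 1 = Complex.I / (Real.sqrt 5 : ℝ) := by
    unfold z5
    push_cast
    field_simp
    ring
  rw [e, div_pow, h5', Complex.I_sq]
  norm_num

lemma z5_fix : m5 z5 = z5 := by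
  have h0 := w5_aux z5_pos
  have h1 := z5_sq
  unfold m5
  rw [show 15 * z5 - 5 = 5 * (3 * z5 - 1) by ring, div_eq_iff (mul_ne_zero (by norm_num) h0)]
  linear_combination (-(5 / 3 : ℂ)) * h1

lemma j5_z5 : j5 z5 = -1 := by
  unfold j5
  rw [z5_sq]
  norm_num

/-- the constant of `m5` -/
lemma m5_const {z : ℂ} (hz : 0 < z.im) : F (m5 z) = -F z + 2 * F z5 := by
  obtain ⟨ε, C, hε, h1, h2⟩ := (isCusp5 hcp hqe).map.const
  have h3 := h1 z5 z5_pos
  rw [z5_fix, j5_z5] at h3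
  have h4 : ε = -1 := by
    have := mul_right_cancel₀ (ff_ne z5_pos) (show (-1 : ℂ) * ff z5 = ε * ff z5 by rw [← h3]; ring)
    exact this.symm
  have h5 := h2 z5 z5_pos
  rw [z5_fix, h4] at h5
  have h6 := h2 z hz
  rw [h4] at h6
  rw [h6]
  linear_combination -h5

lemma F_half (y : ℝ) (hy : 0 < y) : (F (1 / 2 + (y : ℂ) * Complex.I)).im = 0 := by
  have e2 : (1 / 2 : ℂ) = (((1 / 2 : ℝ)) : ℂ) := by push_cast; rfl
  have hz : 0 < (1 / 2 + (y : ℂ) * Complex.I).im := by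
    rw [e2, line_im, Complex.ofReal_im, zero_add]; exact hy
  have h1 := F_conj hz
  have h2 : -(starRingEnd ℂ) (1 / 2 + (y : ℂ) * Complex.I) = (1 / 2 + (y : ℂ) * Complex.I) - 1 := by
    rw [e2, map_add, map_mul, Complex.conj_ofReal, Complex.conj_ofReal, Complex.conj_I]
    push_cast
    ring
  rw [h2, F_sub_one] at h1
  have := congrArg Complex.im h1
  rw [Complex.conj_im] at this
  linarith

lemma kappa_z5 : kappa = 4 * (F z5).im := by
  have hw : (4 / 15 + (1 / 15) * Complex.I : ℂ) = m5 (1 / 2 + ((1 / 6 : ℝ) : ℂ) * Complex.I) := by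
    unfold m5
    have h0 : (15 * (1 / 2 + ((1 / 6 : ℝ) : ℂ) * Complex.I) - 5 : ℂ) ≠ 0 := by
      intro h
      have := congrArg Complex.im h
      push_cast at this
      norm_num at this
    rw [eq_div_iff h0]
    push_cast
    linear_combination (1 / 6 : ℂ) * Complex.I_sq
  have hpos : 0 < (1 / 2 + ((1 / 6 : ℝ) : ℂ) * Complex.I).im := by norm_num
  have h1 : (F (4 / 15 + (1 / 15) * Complex.I)).im = 2 * (F z5).im := by
    rw [hw, m5_const hpos, Complex.add_im, Complex.neg_im, F_half _ (by norm_num)]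
    simp
  have hz : 0 < (-(4 / 15) + (1 / 15) * Complex.I : ℂ).im := by norm_num
  have h2 := per_spec (a := 4) (b := 1) (c := 1) (d := 4) (by norm_num) hz
  have e1 : (((4 : ℤ) : ℂ) * (-(4 / 15) + (1 / 15) * Complex.I) + ((1 : ℤ) : ℂ)) /
      (15 * ((1 : ℤ) : ℂ) * (-(4 / 15) + (1 / 15) * Complex.I) + ((4 : ℤ) : ℂ)) =
      4 / 15 + (1 / 15) * Complex.I := by
    have h0 : (15 * ((1 : ℤ) : ℂ) * (-(4 / 15) + (1 / 15) * Complex.I) + ((4 : ℤ) : ℂ)) = Complex.I := by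
      push_cast; ring
    rw [h0, div_eq_iff Complex.I_ne_zero]
    push_cast
    linear_combination (-(1 / 15) : ℂ) * Complex.I_sq
  rw [e1] at h2
  have hz' : 0 < (4 / 15 + (1 / 15) * Complex.I : ℂ).im := by norm_num
  have h3 := F_conj hz'
  have e2 : -(starRingEnd ℂ) (4 / 15 + (1 / 15) * Complex.I) = -(4 / 15) + (1 / 15) * Complex.I := by
    have e3 : (4 / 15 : ℂ) = (((4 / 15 : ℝ)) : ℂ) := by push_cast; rfl
    have e4 : (1 / 15 : ℂ) = (((1 / 15 : ℝ)) : ℂ) := by push_cast; rfl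
    rw [e3, e4, map_add, map_mul, Complex.conj_ofReal, Complex.conj_ofReal, Complex.conj_I]
    ring
  rw [e2] at h3
  rw [h3] at h2
  have h4 := congrArg Complex.im h2
  rw [Complex.add_im, Complex.conj_im, h1] at h4
  unfold kappa hI
  linarith

lemma norm_qq_z5 : ‖qq z5‖ ≤ 2 / 5 := by
  rw [norm_qq, z5_im]
  have h5 : Real.sqrt 5 < 224 / 100 := by
    rw [Real.sqrt_lt' (by norm_num)]
    norm_num
  have h5p : 0 < Real.sqrt 5 := by positivity
  have hpi := Real.pi_gt_d2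
  have h1 : (93 / 100 : ℝ) ≤ 2 * Real.pi * (1 / (3 * Real.sqrt 5)) := by
    rw [mul_one_div, le_div_iff₀ (by positivity)]
    nlinarith
  have h2 : (5 / 2 : ℝ) ≤ Real.exp (93 / 100) := by
    have := Real.sum_le_exp_of_nonneg (x := 93 / 100) (by norm_num) 6
    refine le_trans ?_ this
    norm_num [Finset.sum_range_succ, Nat.factorial]
  have h3 : Real.exp (-2 * Real.pi * (1 / (3 * Real.sqrt 5))) =
      (Real.exp (2 * Real.pi * (1 / (3 * Real.sqrt 5))))⁻¹ := by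
    rw [← Real.exp_neg]
    congr 1
    ring
  rw [h3]
  have h4 : (5 / 2 : ℝ) ≤ Real.exp (2 * Real.pi * (1 / (3 * Real.sqrt 5))) :=
    h2.trans (Real.exp_le_exp.2 h1)
  rw [inv_le_comm₀ (Real.exp_pos _) (by norm_num)]
  linarith

lemma qq_z5_im : (qq z5).im = ‖qq z5‖ * (Real.sqrt 3 / 2) := by
  have e : (2 * Real.pi * Complex.I * z5 : ℂ) =
      ((-2 * Real.pi * z5.im : ℝ) : ℂ) + ((2 * Real.pi / 3 : ℝ) : ℂ) * Complex.I := by
    rw [z5_im]
    unfold z5
    push_cast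
    linear_combination (2 * Real.pi * (1 / (3 * Real.sqrt 5)) : ℂ) * Complex.I_sq
  have h1 : (qq z5).im = Real.exp (-2 * Real.pi * z5.im) * Real.sin (2 * Real.pi / 3) := by
    unfold qq
    rw [e, Complex.exp_im]
    simp
  have h2 : Real.sin (2 * Real.pi / 3) = Real.sqrt 3 / 2 := by
    rw [show 2 * Real.pi / 3 = Real.pi - Real.pi / 3 by ring, Real.sin_pi_sub, Real.sin_pi_div_three]
  rw [h1, h2, norm_qq]

/-- **the constant is positive** -/
theorem kappa_pos : 0 < kappa := by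
  rw [kappa_z5]
  have h1 := Phi_sub norm_qq_z5
  have h2 := qq_z5_im
  have h3 := Complex.abs_im_le_norm (Phi (qq z5) - qq z5)
  rw [Complex.sub_im] at h3
  have h4 := (abs_le.1 (h3.trans h1)).1
  have h5 : 0 < ‖qq z5‖ := norm_pos_iff.2 (qq_ne z5)
  have h6 : (17 / 10 : ℝ) < Real.sqrt 3 := by
    rw [Real.lt_sqrt (by norm_num)]
    norm_num
  have h7 : (F z5).im = (Phi (qq z5)).im := rfl
  rw [h7]
  rw [h2] at h4
  nlinarith

end Pool.Agent.Run7.h741.MF
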