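import Pool.Agent.Run7.h741.MF.AL
import Pool.Agent.W97.MT.Cusps

/-!
The behaviour at the four cusps of `X_0(15)`.
-/

set_option autoImplicit false

open Filter Topology

namespace Pool.Agent.Run7.h741.MF

open Pool.Agent.W97.TW
open Pool.Agent.W97.MT (qq tt tt_ne qq_ne tt_pow norm_qq norm_qq_lt eta_mul eta_one G_mul Q_ne
  Q_ne_pow G_ne im_mul z_ne H_open eta_diff QV QV_Q QV_Q1 QV_of_sq Q_contOn Q_contOn1 qq_cont
  comp_cont iI iI_pos)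

lemma eta_diffs {z : ℂ} (hz : 0 < z.im) : DifferentiableAt ℂ (fun w : ℂ => ModularForm.eta w) z ∧
    DifferentiableAt ℂ (fun w : ℂ => ModularForm.eta (3 * w)) z ∧
    DifferentiableAt ℂ (fun w : ℂ => ModularForm.eta (5 * w)) z ∧
    DifferentiableAt ℂ (fun w : ℂ => ModularForm.eta (15 * w)) z := by
  have h1 := eta_diff hz 1 (by norm_num)
  have h3 := eta_diff hz 3 (by norm_num)
  have h5 := eta_diff hz 5 (by norm_num)
  have h15 := eta_diff hz 15 (by norm_num)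
  push_cast at h1 h3 h5 h15
  simp only [one_mul] at h1
  exact ⟨h1, h3, h5, h15⟩

lemma eta_nes {z : ℂ} (hz : 0 < z.im) : ModularForm.eta z ≠ 0 ∧ ModularForm.eta (3 * z) ≠ 0 ∧
    ModularForm.eta (5 * z) ≠ 0 ∧ ModularForm.eta (15 * z) ≠ 0 := by
  have h3 := ModularForm.eta_ne_zero (im_mul hz 3 (by norm_num))
  have h5 := ModularForm.eta_ne_zero (im_mul hz 5 (by norm_num))
  have h15 := ModularForm.eta_ne_zero (im_mul hz 15 (by norm_num))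
  push_cast at h3 h5 h15
  exact ⟨ModularForm.eta_ne_zero hz, h3, h5, h15⟩

lemma ff_ne {z : ℂ} (hz : 0 < z.im) : ff z ≠ 0 := by
  obtain ⟨e1, e3, e5, e15⟩ := eta_nes hz
  exact mul_ne_zero (mul_ne_zero (mul_ne_zero e1 e3) e5) e15

lemma X1_ne {z : ℂ} (hz : 0 < z.im) : X1 z ≠ 0 := by
  obtain ⟨e1, e3, e5, e15⟩ := eta_nes hz
  unfold X1
  positivity

lemma ff_diff {z : ℂ} (hz : 0 < z.im) : DifferentiableAt ℂ ff z := by
  obtain ⟨e1, e3, e5, e15⟩ := eta_diffs hz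
  exact ((e1.mul e3).mul e5).mul e15

lemma X1_diff {z : ℂ} (hz : 0 < z.im) : DifferentiableAt ℂ X1 z := by
  obtain ⟨e1, e3, e5, e15⟩ := eta_diffs hz
  obtain ⟨n1, n3, n5, n15⟩ := eta_nes hz
  exact (((e1.inv n1).mul e3).mul (e5.pow 5)).mul ((e15.pow 5).inv (pow_ne_zero _ n15))

lemma V1_diff {z : ℂ} (hz : 0 < z.im) : DifferentiableAt ℂ V1 z := by
  obtain ⟨e1, e3, e5, e15⟩ := eta_diffs hz
  obtain ⟨n1, n3, n5, n15⟩ := eta_nes hz
  exact (((e1.pow 2).mul (e3.pow 4)).mul (e5.pow 2)).mul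
    ((e15.pow 8).inv (pow_ne_zero _ n15))

/-- the data at a cusp -/
structure IsCusp (m j : ℂ → ℂ) (x y : ℂ) : Prop where
  pos : ∀ z : ℂ, 0 < z.im → 0 < (m z).im
  der : ∀ z : ℂ, 0 < z.im → HasDerivAt m (j z) z
  jne : ∀ z : ℂ, 0 < z.im → j z ≠ 0
  jcont : ContinuousOn j {z : ℂ | 0 < z.im}
  ffj : ∀ z : ℂ, 0 < z.im → (ff (m z) * j z) ^ 2 = ff z ^ 2
  X : QV (fun z => X1 (m z)) x
  V : QV (fun z => V1 (m z)) y

lemma X1_cont : ContinuousOn X1 {z : ℂ | 0 < z.im} := fun _ hz =>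
  (X1_diff hz).continuousAt.continuousWithinAt

lemma V1_cont : ContinuousOn V1 {z : ℂ | 0 < z.im} := fun _ hz =>
  (V1_diff hz).continuousAt.continuousWithinAt

lemma ff_cont : ContinuousOn ff {z : ℂ | 0 < z.im} := fun _ hz =>
  (ff_diff hz).continuousAt.continuousWithinAt

/-- `z ↦ -1/(15z)` -/
noncomputable def m15 (z : ℂ) : ℂ := -1 / (15 * z)

/-- `z ↦ (5z-2)/(15z-5)` -/
noncomputable def m5 (z : ℂ) : ℂ := (5 * z - 2) / (15 * z - 5)

/-- `z ↦ (3z+1)/(15z+6)` -/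
noncomputable def m3 (z : ℂ) : ℂ := (3 * z + 1) / (15 * z + 6)

/-- derivative of `m15` -/
noncomputable def j15 (z : ℂ) : ℂ := (15 * z ^ 2)⁻¹

/-- derivative of `m5` -/
noncomputable def j5 (z : ℂ) : ℂ := (5 * (3 * z - 1) ^ 2)⁻¹

/-- derivative of `m3` -/
noncomputable def j3 (z : ℂ) : ℂ := (3 * (5 * z + 2) ^ 2)⁻¹

lemma Q_nes {z : ℂ} (hz : 0 < z.im) : Q (qq z) ≠ 0 ∧ Q (qq z ^ 3) ≠ 0 ∧ Q (qq z ^ 5) ≠ 0 ∧
    Q (qq z ^ 15) ≠ 0 :=
  ⟨Q_ne (norm_qq_lt hz), Q_ne_pow (norm_qq_lt hz) (by norm_num),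
    Q_ne_pow (norm_qq_lt hz) (by norm_num), Q_ne_pow (norm_qq_lt hz) (by norm_num)⟩

lemma cusp15_core : (∀ z : ℂ, 0 < z.im → 0 < (m15 z).im) ∧
    (∀ z : ℂ, 0 < z.im → HasDerivAt m15 (j15 z) z) ∧
    (∀ z : ℂ, 0 < z.im → j15 z ≠ 0) ∧ ContinuousOn j15 {z : ℂ | 0 < z.im} ∧
    (∀ z : ℂ, 0 < z.im → (ff (m15 z) * j15 z) ^ 2 = ff z ^ 2) ∧ QV (fun z => V1 (m15 z)) 0 := by
  refine ⟨fun z hz => w15_pos hz, fun z hz => ?_, fun z hz => ?_, ?_, fun z hz => ?_, ?_⟩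
  · have h0 := z_ne hz
    have h1 : HasDerivAt (fun w : ℂ => 15 * w) 15 z := by
      simpa using (hasDerivAt_id z).const_mul (15 : ℂ)
    have h2 := (hasDerivAt_const z (-1 : ℂ)).div h1 (mul_ne_zero (by norm_num) h0)
    unfold m15 j15
    refine h2.congr_deriv ?_
    field_simp
    ring
  · have h0 := z_ne hz
    exact inv_ne_zero (mul_ne_zero (by norm_num) (pow_ne_zero 2 h0))
  · intro z hz
    have h0 := z_ne hz
    unfold j15
    exact ContinuousAt.continuousWithinAt (ContinuousAt.inv₀ (by fun_prop)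
      (mul_ne_zero (by norm_num) (pow_ne_zero 2 h0)))
  · have h0 := z_ne hz
    unfold m15 j15
    rw [mul_pow, ff_w15 hz]
    field_simp
  · have q3 := QV_Q 3 (by norm_num)
    have q5 := QV_Q 5 (by norm_num)
    have q15 := QV_Q 15 (by norm_num)
    have h := ((QV.qq'.pow 2).mul ((QV.const 1125).mul ((((((QV_Q1.pow 4).inv (by norm_num)).mul
      q3).mul (q5.pow 2)).mul q15).pow 2))).of_val (show _ = (0 : ℂ) by norm_num)
    refine h.of_eq (iI_pos.mono fun z hz => ?_)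
    exact V1_w15 hz

lemma cusp15 : IsCusp m15 j15 9 0 ∨ IsCusp m15 j15 (-9) 0 := by
  obtain ⟨h1, h2, h3, h4, h5, h6⟩ := cusp15_core
  have q3 := QV_Q 3 (by norm_num)
  have q5 := QV_Q 5 (by norm_num)
  have q15 := QV_Q 15 (by norm_num)
  have h := ((QV.const 9).mul (((((QV_Q1.pow 5).inv (by norm_num)).mul (q3.pow 5)).mul q5).mul
      (q15.inv one_ne_zero))).of_val (show _ = (9 : ℂ) by norm_num)
  have c1 := Q_contOn1
  have c3 := Q_contOn 3 (by norm_num)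
  have c5 := Q_contOn 5 (by norm_num)
  have c15 := Q_contOn 15 (by norm_num)
  have e : ∀ z : ℂ, 0 < z.im → X1 (m15 z) ^ 2 = (9 * ((Q (qq z) ^ 5)⁻¹ * Q (qq z ^ 3) ^ 5 *
      Q (qq z ^ 5) * (Q (qq z ^ 15))⁻¹)) ^ 2 := fun z hz => by
    rw [mul_pow]
    have := X1_w15 hz
    unfold m15
    rw [this]
    norm_num
  have e0 : ∀ z : ℂ, 0 < z.im → 9 * ((Q (qq z) ^ 5)⁻¹ * Q (qq z ^ 3) ^ 5 *
      Q (qq z ^ 5) * (Q (qq z ^ 15))⁻¹) ≠ 0 := fun z hz => by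
    obtain ⟨n1, n3, n5, n15⟩ := Q_nes hz
    exact mul_ne_zero (by norm_num) (by positivity)
  have c : ContinuousOn (fun z => 9 * ((Q (qq z) ^ 5)⁻¹ * Q (qq z ^ 3) ^ 5 *
      Q (qq z ^ 5) * (Q (qq z ^ 15))⁻¹)) {z : ℂ | 0 < z.im} :=
    continuousOn_const.mul (((((c1.pow 5).inv₀ fun z hz => pow_ne_zero _ (Q_nes hz).1).mul
      (c3.pow 5)).mul c5).mul (c15.inv₀ fun z hz => (Q_nes hz).2.2.2))
  rcases QV_of_sq (comp_cont h1 h2 X1_cont) c e e0 h with h7 | h7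
  · exact Or.inl ⟨h1, h2, h3, h4, h5, h7, h6⟩
  · exact Or.inr ⟨h1, h2, h3, h4, h5, h7, h6⟩

lemma cusp5_core : (∀ z : ℂ, 0 < z.im → 0 < (m5 z).im) ∧
    (∀ z : ℂ, 0 < z.im → HasDerivAt m5 (j5 z) z) ∧
    (∀ z : ℂ, 0 < z.im → j5 z ≠ 0) ∧ ContinuousOn j5 {z : ℂ | 0 < z.im} ∧
    (∀ z : ℂ, 0 < z.im → (ff (m5 z) * j5 z) ^ 2 = ff z ^ 2) ∧ QV (fun z => V1 (m5 z)) 0 := by
  have hne : ∀ z : ℂ, 0 < z.im → (5 : ℂ) * (3 * z - 1) ^ 2 ≠ 0 := fun z hz =>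
    mul_ne_zero (by norm_num) (pow_ne_zero 2 (w5_aux hz))
  refine ⟨fun z hz => w5_pos hz, fun z hz => ?_, fun z hz => inv_ne_zero (hne z hz), ?_,
    fun z hz => ?_, ?_⟩
  · have h0 := w5_aux hz
    have h7 : (15 * z - 5 : ℂ) = 5 * (3 * z - 1) := by ring
    have h1 : HasDerivAt (fun w : ℂ => 15 * w - 5) 15 z := by
      simpa using ((hasDerivAt_id z).const_mul (15 : ℂ)).sub_const 5
    have h1' : HasDerivAt (fun w : ℂ => 5 * w - 2) 5 z := by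
      simpa using ((hasDerivAt_id z).const_mul (5 : ℂ)).sub_const 2
    have h2 := h1'.div h1 (by rw [h7]; exact mul_ne_zero (by norm_num) h0)
    unfold m5 j5
    refine h2.congr_deriv ?_
    rw [h7]
    field_simp
    ring
  · intro z hz
    unfold j5
    exact ContinuousAt.continuousWithinAt (ContinuousAt.inv₀ (by fun_prop) (hne z hz))
  · have h0 := w5_aux hz
    unfold m5 j5
    rw [mul_pow, ff_w5 hz]
    field_simp
  · have q3 := QV_Q 3 (by norm_num)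
    have q5 := QV_Q 5 (by norm_num)
    have q15 := QV_Q 15 (by norm_num)
    have h := ((QV.qq'.pow 2).mul ((QV.const 125).mul ((((QV_Q1.mul ((q3.pow 4).inv
      (by norm_num))).mul q5).mul (q15.pow 2)).pow 2))).of_val
        (show _ = (0 : ℂ) by norm_num)
    refine h.of_eq (iI_pos.mono fun z hz => ?_)
    exact V1_w5 hz

lemma cusp5 : IsCusp m5 j5 1 0 ∨ IsCusp m5 j5 (-1) 0 := by
  obtain ⟨h1, h2, h3, h4, h5, h6⟩ := cusp5_core
  have q3 := QV_Q 3 (by norm_num)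
  have q5 := QV_Q 5 (by norm_num)
  have q15 := QV_Q 15 (by norm_num)
  have h := ((((QV_Q1.pow 5).mul ((q3.pow 5).inv (by norm_num))).mul (q5.inv one_ne_zero)).mul
      q15).of_val (show _ = (1 : ℂ) by norm_num)
  have c1 := Q_contOn1
  have c3 := Q_contOn 3 (by norm_num)
  have c5 := Q_contOn 5 (by norm_num)
  have c15 := Q_contOn 15 (by norm_num)
  have e : ∀ z : ℂ, 0 < z.im → X1 (m5 z) ^ 2 = (Q (qq z) ^ 5 * (Q (qq z ^ 3) ^ 5)⁻¹ *
    (Q (qq z ^ 5))⁻¹ * (Q (qq z ^ 15))) ^ 2 := fun z hz => X1_w5 hz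
  have e0 : ∀ z : ℂ, 0 < z.im → (Q (qq z) ^ 5 * (Q (qq z ^ 3) ^ 5)⁻¹ *
    (Q (qq z ^ 5))⁻¹ * (Q (qq z ^ 15))) ≠ 0 := fun z hz => by
    obtain ⟨n1, n3, n5, n15⟩ := Q_nes hz
    positivity
  have c : ContinuousOn (fun z => Q (qq z) ^ 5 * (Q (qq z ^ 3) ^ 5)⁻¹ *
    (Q (qq z ^ 5))⁻¹ * (Q (qq z ^ 15))) {z : ℂ | 0 < z.im} :=
    ((((c1.pow 5).mul ((c3.pow 5).inv₀ fun z hz => pow_ne_zero _ (Q_nes hz).2.1)).mul
      (c5.inv₀ fun z hz => (Q_nes hz).2.2.1)).mul c15)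
  rcases QV_of_sq (comp_cont h1 h2 X1_cont) c e e0 h with h7 | h7
  · exact Or.inl ⟨h1, h2, h3, h4, h5, h7, h6⟩
  · exact Or.inr ⟨h1, h2, h3, h4, h5, h7, h6⟩

lemma cusp3 : IsCusp m3 j3 0 9 := by
  have hne : ∀ z : ℂ, 0 < z.im → (3 : ℂ) * (5 * z + 2) ^ 2 ≠ 0 := fun z hz =>
    mul_ne_zero (by norm_num) (pow_ne_zero 2 (w3_aux hz))
  have hpos : ∀ z : ℂ, 0 < z.im → 0 < (m3 z).im := fun z hz => w3_pos hz
  have hder : ∀ z : ℂ, 0 < z.im → HasDerivAt m3 (j3 z) z := fun z hz => by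
    have h0 := w3_aux hz
    have h7 : (15 * z + 6 : ℂ) = 3 * (5 * z + 2) := by ring
    have h1 : HasDerivAt (fun w : ℂ => 15 * w + 6) 15 z := by
      simpa using ((hasDerivAt_id z).const_mul (15 : ℂ)).add_const 6
    have h1' : HasDerivAt (fun w : ℂ => 3 * w + 1) 3 z := by
      simpa using ((hasDerivAt_id z).const_mul (3 : ℂ)).add_const 1
    have h2 := h1'.div h1 (by rw [h7]; exact mul_ne_zero (by norm_num) h0)
    unfold m3 j3
    refine h2.congr_deriv ?_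
    rw [h7]
    field_simp
    ring
  refine ⟨hpos, hder, fun z hz => inv_ne_zero (hne z hz), ?_, fun z hz => ?_, ?_, ?_⟩
  · intro z hz
    unfold j3
    exact ContinuousAt.continuousWithinAt (ContinuousAt.inv₀ (by fun_prop) (hne z hz))
  · have h0 := w3_aux hz
    unfold m3 j3
    rw [mul_pow, ff_w3 hz]
    field_simp
  · have q3 := QV_Q 3 (by norm_num)
    have q5 := QV_Q 5 (by norm_num)
    have q15 := QV_Q 15 (by norm_num)
    have h := ((QV.qq'.pow 2).mul ((QV.const 9).mul (((QV_Q1.mul (q3.inv one_ne_zero)).mul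
      ((q5.pow 5).inv (by norm_num))).mul (q15.pow 5)))).of_val (show _ = (0 : ℂ) by norm_num)
    have c1 := Q_contOn1
    have c3 := Q_contOn 3 (by norm_num)
    have c5 := Q_contOn 5 (by norm_num)
    have c15 := Q_contOn 15 (by norm_num)
    have e : ∀ z : ℂ, 0 < z.im → X1 (m3 z) ^ 2 = (qq z ^ 2 * (9 * (Q (qq z) * (Q (qq z ^ 3))⁻¹ *
        (Q (qq z ^ 5) ^ 5)⁻¹ * (Q (qq z ^ 15)) ^ 5))) ^ 2 := fun z hz => by
      have := X1_w3 hz
      unfold m3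
      rw [this]
      ring
    have e0 : ∀ z : ℂ, 0 < z.im → qq z ^ 2 * (9 * (Q (qq z) * (Q (qq z ^ 3))⁻¹ *
        (Q (qq z ^ 5) ^ 5)⁻¹ * (Q (qq z ^ 15)) ^ 5)) ≠ 0 := fun z hz => by
      obtain ⟨n1, n3, n5, n15⟩ := Q_nes hz
      exact mul_ne_zero (pow_ne_zero 2 (qq_ne z)) (mul_ne_zero (by norm_num) (by positivity))
    have c : ContinuousOn (fun z => qq z ^ 2 * (9 * (Q (qq z) * (Q (qq z ^ 3))⁻¹ *
        (Q (qq z ^ 5) ^ 5)⁻¹ * (Q (qq z ^ 15)) ^ 5))) {z : ℂ | 0 < z.im} :=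
      (qq_cont.continuousOn.pow 2).mul (continuousOn_const.mul (((c1.mul
        (c3.inv₀ fun z hz => (Q_nes hz).2.1)).mul
        ((c5.pow 5).inv₀ fun z hz => pow_ne_zero _ (Q_nes hz).2.2.1)).mul (c15.pow 5)))
    rcases QV_of_sq (comp_cont hpos hder X1_cont) c e e0 h with h7 | h7
    · exact h7
    · exact h7.of_val (by norm_num)
  · have q3 := QV_Q 3 (by norm_num)
    have q5 := QV_Q 5 (by norm_num)
    have q15 := QV_Q 15 (by norm_num)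
    have h := ((QV.const 9).mul (((((QV_Q1.pow 2).mul q3).mul ((q5.pow 4).inv
      (by norm_num))).mul q15).pow 2)).of_val (show _ = (9 : ℂ) by norm_num)
    refine h.of_eq (iI_pos.mono fun z hz => ?_)
    exact V1_w3 hz

end Pool.Agent.Run7.h741.MF
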