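import Pool.Agent.Run7.h741.MF.Form
import Pool.Agent.W97.MT.Dim
import Pool.Agent.W97.TW.Lfun
import Pool.Agent.W97.TW.Hecke
import Pool.Agent.W97.TW.Twist

/-!
`dim S_2(Γ_0(15)) = 1`.
-/

set_option autoImplicit false

open UpperHalfPlane MatrixGroups CongruenceSubgroup Filter Topology Asymptotics
open scoped ModularForm Pointwise

namespace Pool.Agent.Run7.h741.MF

open Pool.Agent.W97.TW
open Pool.Agent.W97.MT (qq qq_ne norm_qq norm_qq_lt im_mul z_ne H_open QV iI iI_pos iI_eventually tendsto_qq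
  S_QEXP S_INJ S_ODE S_SUB hasDerivAt_qq tpi_ne line_im line_re inv_I im_aux exists_qq dslope_analytic
  qParam_one cusp_expansion)

lemma strict_one {a b c d : ℤ} (h : 0 < a * d - b * c) {a' b' c' d' : ℤ}
    (h' : a' * d' - b' * c' = 1) (hc : ((15 : ℕ) : ℤ) ∣ c') (e1 : a' * a + b' * c = a)
    (e2 : a' * b + b' * d = a + b) (e3 : c' * a + d' * c = c) (e4 : c' * b + d' * d = c + d) :
    (1 : ℝ) ∈ (ConjAct.toConjAct (al a b c d h)⁻¹ •
      (Gamma0 15 : Subgroup (GL (Fin 2) ℝ))).strictPeriods := by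
  rw [Subgroup.mem_strictPeriods_iff, map_inv, Subgroup.mem_inv_pointwise_smul_iff,
    ConjAct.toConjAct_smul]
  refine ⟨mkSL a' b' c' d' h', (mkSL_mem a' b' c' d' h' 15).2 hc, ?_⟩
  rw [eq_mul_inv_iff_mul_eq]
  apply Units.ext
  rw [Units.val_mul, Units.val_mul, al_GL]
  have e0 : ((Matrix.SpecialLinearGroup.mapGL ℝ (mkSL a' b' c' d' h') : GL (Fin 2) ℝ) :
    Matrix (Fin 2) (Fin 2) ℝ) = !![(a' : ℝ), (b' : ℝ); (c' : ℝ), (d' : ℝ)] := mkSL_GL a' b' c' d' h'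
  rw [e0]
  have e5 : (a' : ℝ) * a + b' * c = a := by exact_mod_cast e1
  have e6 : (a' : ℝ) * b + b' * d = a + b := by exact_mod_cast e2
  have e7 : (c' : ℝ) * a + d' * c = c := by exact_mod_cast e3
  have e8 : (c' : ℝ) * b + d' * d = c + d := by exact_mod_cast e4
  ext i j
  fin_cases i <;> fin_cases j <;> simp [Matrix.mul_apply, Fin.sum_univ_two, e5, e6, e7, e8]

variable (g : CuspForm (Gamma0 15 : Subgroup (GL (Fin 2) ℝ)) 2)

lemma exp_m15 : ∃ k : ℂ → ℂ, AnalyticAt ℂ k 0 ∧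
    ∀ z : ℂ, 0 < z.im → g (ofComplex (m15 z)) * j15 z = qq z * k (qq z) := by
  have h : (0 : ℤ) < 0 * 0 - (-1) * 15 := by norm_num
  obtain ⟨k, hk, h1⟩ := cusp_expansion (CuspForm.translate g (al 0 (-1) 15 0 h))
    (strict_one h (a' := 1) (b' := 0) (c' := -15) (d' := 1) (by norm_num) (by norm_num)
      (by norm_num) (by norm_num) (by norm_num) (by norm_num))
  refine ⟨k, hk, fun z hz => ?_⟩
  rw [← h1 z hz]
  change _ = ((g : ℍ → ℂ) ∣[(2 : ℤ)] al 0 (-1) 15 0 h) (ofComplex z)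
  rw [slash_al, ofComplex_apply_of_im_pos hz]
  have h0 := z_ne hz
  have e : ((0 : ℤ) * (z : ℂ) + ((-1 : ℤ) : ℂ)) / (((15 : ℤ) : ℂ) * z + ((0 : ℤ) : ℂ)) = m15 z := by
    unfold m15; push_cast; congr 1 <;> ring
  change _ = g (ofComplex (((0 : ℤ) * (z : ℂ) + ((-1 : ℤ) : ℂ)) / (((15 : ℤ) : ℂ) * z + ((0 : ℤ) : ℂ)))) *
    _ * (((15 : ℤ) : ℂ) * z + ((0 : ℤ) : ℂ)) ^ (-2 : ℤ)
  rw [e, zpow_neg]
  unfold j15
  norm_num
  norm_cast
  rw [mul_assoc]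
  congr 1
  field_simp

lemma exp_m5 : ∃ k : ℂ → ℂ, AnalyticAt ℂ k 0 ∧
    ∀ z : ℂ, 0 < z.im → g (ofComplex (m5 z)) * j5 z = qq z * k (qq z) := by
  have h : (0 : ℤ) < 5 * (-5) - (-2) * 15 := by norm_num
  obtain ⟨k, hk, h1⟩ := cusp_expansion (CuspForm.translate g (al 5 (-2) 15 (-5) h))
    (strict_one h (a' := -14) (b' := 5) (c' := -45) (d' := 16) (by norm_num) (by norm_num)
      (by norm_num) (by norm_num) (by norm_num) (by norm_num))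
  refine ⟨k, hk, fun z hz => ?_⟩
  rw [← h1 z hz]
  change _ = ((g : ℍ → ℂ) ∣[(2 : ℤ)] al 5 (-2) 15 (-5) h) (ofComplex z)
  rw [slash_al, ofComplex_apply_of_im_pos hz]
  have h0 := w5_aux hz
  have e : ((5 : ℤ) * (z : ℂ) + ((-2 : ℤ) : ℂ)) / (((15 : ℤ) : ℂ) * z + ((-5 : ℤ) : ℂ)) = m5 z := by
    unfold m5; push_cast; rfl
  have e' : (((15 : ℤ) : ℂ) * z + ((-5 : ℤ) : ℂ)) = 5 * (3 * z - 1) := by push_cast; ring
  change _ = g (ofComplex (((5 : ℤ) * (z : ℂ) + ((-2 : ℤ) : ℂ)) / (((15 : ℤ) : ℂ) * z + ((-5 : ℤ) : ℂ)))) *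
    _ * (((15 : ℤ) : ℂ) * z + ((-5 : ℤ) : ℂ)) ^ (-2 : ℤ)
  rw [e, e', zpow_neg, show ((5 * (3 * z - 1)) ^ (2 : ℤ) : ℂ) = (5 * (3 * z - 1)) ^ 2 from zpow_ofNat _ 2]
  unfold j5
  norm_num
  rw [mul_assoc]
  congr 1
  field_simp

lemma exp_m3 : ∃ k : ℂ → ℂ, AnalyticAt ℂ k 0 ∧
    ∀ z : ℂ, 0 < z.im → g (ofComplex (m3 z)) * j3 z = qq z * k (qq z) := by
  have h : (0 : ℤ) < 3 * 6 - 1 * 15 := by norm_num
  obtain ⟨k, hk, h1⟩ := cusp_expansion (CuspForm.translate g (al 3 1 15 6 h))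
    (strict_one h (a' := -14) (b' := 3) (c' := -75) (d' := 16) (by norm_num) (by norm_num)
      (by norm_num) (by norm_num) (by norm_num) (by norm_num))
  refine ⟨k, hk, fun z hz => ?_⟩
  rw [← h1 z hz]
  change _ = ((g : ℍ → ℂ) ∣[(2 : ℤ)] al 3 1 15 6 h) (ofComplex z)
  rw [slash_al, ofComplex_apply_of_im_pos hz]
  have h0 := w3_aux hz
  have e : ((3 : ℤ) * (z : ℂ) + ((1 : ℤ) : ℂ)) / (((15 : ℤ) : ℂ) * z + ((6 : ℤ) : ℂ)) = m3 z := by
    unfold m3; push_cast; rfl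
  have e' : (((15 : ℤ) : ℂ) * z + ((6 : ℤ) : ℂ)) = 3 * (5 * z + 2) := by push_cast; ring
  change _ = g (ofComplex (((3 : ℤ) * (z : ℂ) + ((1 : ℤ) : ℂ)) / (((15 : ℤ) : ℂ) * z + ((6 : ℤ) : ℂ)))) *
    _ * (((15 : ℤ) : ℂ) * z + ((6 : ℤ) : ℂ)) ^ (-2 : ℤ)
  rw [e, e', zpow_neg, show ((3 * (5 * z + 2)) ^ (2 : ℤ) : ℂ) = (3 * (5 * z + 2)) ^ 2 from zpow_ofNat _ 2]
  unfold j3
  norm_num
  rw [mul_assoc]
  congr 1
  field_simp

lemma g_diff {z : ℂ} (hz : 0 < z.im) : DifferentiableAt ℂ (fun w => g (ofComplex w)) z := by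
  have h1 := UpperHalfPlane.mdifferentiable_iff.1 g.holo'
  exact (h1 z hz).differentiableAt (H_open.mem_nhds hz)

/-- the space of cusp forms is one-dimensional -/
theorem dim_one (hcp : S_CP) (hq : S_QEXP) : ∃ c : ℂ, ∀ z : ℍ, g z = c * e15 z := by
  have hone : (1 : ℝ) ∈ (Gamma0 15 : Subgroup (GL (Fin 2) ℝ)).strictPeriods := one_mem0
  obtain ⟨k1, hk1, h1⟩ := cusp_expansion g hone
  obtain ⟨k15, hk15, h15⟩ := exp_m15 g
  obtain ⟨k7, hk7, h7⟩ := exp_m5 g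
  obtain ⟨k2, hk2, h2⟩ := exp_m3 g
  have hph : ∀ z : ℂ, 0 < z.im → phi (qq z) ≠ 0 := fun z hz h0 => by
    have hf := ff_ne hz
    rw [ff_q, h0, mul_zero] at hf
    exact hf rfl
  have hcusp : ∀ {m j : ℂ → ℂ} (_ : IsMap m j) {k : ℂ → ℂ} (_ : AnalyticAt ℂ k 0)
      (_ : ∀ z : ℂ, 0 < z.im → g (ofComplex (m z)) * j z = qq z * k (qq z)),
      ∃ v, QV (fun z => g (ofComplex (m z)) / ff (m z)) v := by
    intro m j h k hk he
    obtain ⟨ε, hε, hff⟩ := h.sign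
    have hε0 : ε ≠ 0 := by rcases hε with rfl | rfl <;> norm_num
    refine ⟨_, ((QV.comp hk).mul ((QV_phi.inv one_ne_zero).mul (QV.const ε⁻¹))).of_eq
      (iI_pos.mono fun z hz => ?_)⟩
    have e1 := he z hz
    have e2 := hff z hz
    have e3 := h.jne z hz
    have e4 := ff_ne (h.pos z hz)
    have e5 := hph z hz
    have e6 := qq_ne z
    rw [ff_q z] at e2
    rw [div_eq_iff e4]
    apply mul_right_cancel₀ e3
    rw [e1, mul_assoc, e2]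
    field_simp
  obtain ⟨v15, q15⟩ := hcusp (isCusp15 hcp hq).map hk15 h15
  obtain ⟨v7, q7⟩ := hcusp (isCusp5 hcp hq).map hk7 h7
  obtain ⟨v2, q2⟩ := hcusp cusp3.map hk2 h2
  obtain ⟨v1, q1⟩ := hcusp idMap hk1 (fun z hz => by rw [mul_one]; exact h1 z hz)
  obtain ⟨c, hc⟩ := hcp (fun z => g (ofComplex z) / ff z)
    (fun z hz => ((g_diff g hz).div (ff_diff hz) (ff_ne hz)).differentiableWithinAt)
    (fun a b c d h z hz => by
      have e1 := f_gamma g (a := a) (b := b) (c := 15 * c) (d := d) (by linarith)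
        (by exact dvd_mul_right _ _) hz
      have e2 := ff_gamma hcp hq h z hz
      have h0 := (G_gamma h hz).2.1
      have hf := ff_ne hz
      push_cast at e1
      rw [e1, e2, show ((15 * c * z + d : ℂ) ^ (2 : ℤ)) = (15 * c * z + d) ^ 2 from zpow_ofNat _ 2]
      rw [mul_div_mul_left _ _ (pow_ne_zero 2 h0)]) q1.bounded' q15.bounded q7.bounded q2.bounded
  refine ⟨c, fun z => ?_⟩
  have e1 := hc z z.im_pos
  rw [ofComplex_apply] at e1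
  unfold e15
  rw [← e1, div_mul_cancel₀ _ (ff_ne z.im_pos)]

end Pool.Agent.Run7.h741.MF
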