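import Pool.Agent.Run7.h741.MF.Cusps
import Pool.Agent.Run7.h741.MF.QX
import Pool.Agent.W97.MT.Ident

/-!
The identities between the modular functions.
-/

set_option autoImplicit false

open Filter Topology

namespace Pool.Agent.Run7.h741.MF

open Pool.Agent.W97.TW
open Pool.Agent.W97.MT (qq tt tt_ne qq_ne tt_pow norm_qq norm_qq_lt eta_mul eta_one G_mul Q_ne
  Q_ne_pow G_ne im_mul z_ne H_open eta_diff QV QV_Q QV_Q1 QV_of_sq Q_contOn Q_contOn1 qq_cont
  comp_cont iI iI_pos S_QEXP Rep RepC QV_zero_of_dvd mul_zero_or Qq_analytic hasDerivAt_qq tpi_ne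
  eq_or_eq_neg)

/-- invariance under `Γ_0(15)` -/
def Inv (g : ℂ → ℂ) : Prop := ∀ a b c d : ℤ, a * d - b * (15 * c) = 1 → ∀ z : ℂ, 0 < z.im →
  g ((a * z + b) / (15 * c * z + d)) = g z

theorem cp_zero (hcp : S_CP) {g : ℂ → ℂ} (hd : ∀ z : ℂ, 0 < z.im → DifferentiableAt ℂ g z)
    (hinv : Inv g) (h1 : QV g 0) {v15 v5 v3 : ℂ} (h15 : QV (fun z => g (m15 z)) v15)
    (h5 : QV (fun z => g (m5 z)) v5) (h3 : QV (fun z => g (m3 z)) v3) :
    ∀ z : ℂ, 0 < z.im → g z = 0 := by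
  obtain ⟨c, hc⟩ := hcp g (fun z hz => (hd z hz).differentiableWithinAt) hinv h1.bounded'
    h15.bounded h5.bounded h3.bounded
  have h3 : QV g c := (QV.const c).of_eq (iI_pos.mono fun z hz => hc z hz)
  have h4 := h3.val_unique h1
  intro z hz
  rw [hc z hz, h4]

lemma qq_X1 {z : ℂ} (hz : 0 < z.im) : qq z ^ 2 * X1 z = xi (qq z) := by
  rw [X1_q hz]
  field_simp [qq_ne z]

lemma qq_V1 {z : ℂ} (hz : 0 < z.im) : qq z ^ 4 * V1 z = ups (qq z) := by
  rw [V1_q hz]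
  field_simp [qq_ne z]

lemma xi_zero : xi 0 = 1 := by
  unfold xi
  simp [Q_zero]

lemma ups_zero : ups 0 = 1 := by
  unfold ups
  simp [Q_zero]

lemma phi_zero : phi 0 = 1 := by
  unfold phi
  simp [Q_zero]

/-- the function `V - X²`, of order three -/
noncomputable def Y1 (z : ℂ) : ℂ := V1 z - X1 z ^ 2

lemma Y1_diff {z : ℂ} (hz : 0 < z.im) : DifferentiableAt ℂ Y1 z :=
  (V1_diff hz).sub ((X1_diff hz).pow 2)

lemma Y1_gamma {a b c d : ℤ} (h : a * d - b * (15 * c) = 1) {z : ℂ} (hz : 0 < z.im) :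
    Y1 ((a * z + b) / (15 * c * z + d)) = Y1 z := by
  unfold Y1
  rw [V1_gamma h hz, X1_sq_gamma h hz]

/-- the expansion of `Y1` -/
lemma exists_theta {Ξ U Θ : PowerSeries ℤ} (rΞ : W97.MT.Rep xi Ξ) (rU : W97.MT.Rep ups U)
    (hΘ : PowerSeries.X * Θ = U - Ξ ^ 2) : ∃ th : ℂ → ℂ, W97.MT.Rep th Θ ∧
      ∀ z : ℂ, 0 < z.im → qq z ^ 3 * Y1 z = th (qq z) := by
  have h1 : W97.MT.Rep (fun q => ups q - xi q ^ 2) (U - Ξ ^ 2) := rU.sub (rΞ.pow 2)
  rw [← hΘ] at h1
  have h2 : RepC (fun q => ups q - xi q ^ 2)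
      (PowerSeries.X ^ 1 * (PowerSeries.map (Int.castRingHom ℂ) Θ)) := by
    have := h1
    unfold W97.MT.Rep at this
    rwa [map_mul, PowerSeries.map_X, ← pow_one (PowerSeries.X : PowerSeries ℂ)] at this
  obtain ⟨k, hk, h3⟩ := h2.of_X_pow_mul
  refine ⟨k, hk, fun z hz => ?_⟩
  have h4 := h3 (qq z) (norm_qq_lt hz)
  rw [pow_one, ← qq_X1 hz, ← qq_V1 hz] at h4
  refine mul_left_cancel₀ (qq_ne z) ?_
  rw [← h4]
  unfold Y1
  ring

/-- the first function -/
noncomputable def g1 (z : ℂ) : ℂ :=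
  (Y1 z ^ 2 - 18 * Y1 z + 81 + 28 * X1 z ^ 2) ^ 2 - 256 * (X1 z ^ 2 * (X1 z ^ 2 - 9) ^ 2)

lemma IsCusp.Y {m j : ℂ → ℂ} {x y : ℂ} (h : IsCusp m j x y) :
    QV (fun z => Y1 (m z)) (y - x ^ 2) := h.V.sub (h.X.pow 2)

lemma g1_cusp {m j : ℂ → ℂ} {x y : ℂ} (h : IsCusp m j x y) : ∃ v, QV (fun z => g1 (m z)) v :=
  ⟨_, ((((((h.Y.pow 2).sub ((QV.const 18).mul h.Y)).add (QV.const 81)).add
    ((QV.const 28).mul (h.X.pow 2))).pow 2)).sub ((QV.const 256).mul ((h.X.pow 2).mul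
      (((h.X.pow 2).sub (QV.const 9)).pow 2)))⟩

lemma cusp_of_or {m j : ℂ → ℂ} {x x' y : ℂ} (h : IsCusp m j x y ∨ IsCusp m j x' y) :
    ∃ x'', (x'' = x ∨ x'' = x') ∧ IsCusp m j x'' y := by
  rcases h with h | h
  · exact ⟨x, Or.inl rfl, h⟩
  · exact ⟨x', Or.inr rfl, h⟩

lemma g1_diff {z : ℂ} (hz : 0 < z.im) : DifferentiableAt ℂ g1 z := by
  have h1 := X1_diff hz
  have h2 := Y1_diff hz
  unfold g1
  fun_prop

lemma g1_inv : Inv g1 := by
  intro a b c d h z hz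
  unfold g1
  rw [X1_sq_gamma h hz, Y1_gamma h hz]

theorem g1_zero (hcp : S_CP) (hq : S_QEXP) : ∀ z : ℂ, 0 < z.im → g1 z = 0 := by
  obtain ⟨Ξ, U, P, Θ, rΞ, rU, rP, tΞ, tU, tP, hΘ, tΘ⟩ := expansions hq
  obtain ⟨th, rΘ, hth⟩ := exists_theta rΞ rU hΘ
  obtain ⟨x15, -, c15⟩ := cusp_of_or cusp15
  obtain ⟨x5, -, c5⟩ := cusp_of_or cusp5
  obtain ⟨v15, h15⟩ := g1_cusp c15
  obtain ⟨v5, h5⟩ := g1_cusp c5
  obtain ⟨v3, h3⟩ := g1_cusp cusp3
  have hid := identity_one tΞ tΘ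
  rw [num 18, num 81, num 28, num 256, num 9] at hid
  have hrep := (((((((rΘ.pow 2).sub ((Rep.C 18).mul ((Rep.X.pow 3).mul rΘ))).add
    ((Rep.C 81).mul (Rep.X.pow 6))).add ((Rep.C 28).mul ((Rep.X.mul rΞ).pow 2))).pow 2)).sub
    ((Rep.C 256).mul ((rΞ.pow 2).mul (((rΞ.pow 2).sub ((Rep.C 9).mul (Rep.X.pow 4))).pow 2))))
  refine cp_zero hcp (fun z hz => g1_diff hz) g1_inv (QV_zero_of_dvd (m := 12) hrep hid ?_)
    h15 h5 h3
  intro z hz
  unfold g1
  rw [← qq_X1 hz, ← hth z hz]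
  push_cast
  ring

lemma QV_xi : QV (fun z => xi (qq z)) 1 := by
  have h1 : AnalyticAt ℂ xi 0 := by
    have e1 := Qq_analytic 1 one_ne_zero
    have e3 := Qq_analytic 3 (by norm_num)
    have e5 := Qq_analytic 5 (by norm_num)
    have e15 := Qq_analytic 15 (by norm_num)
    simp only [pow_one] at e1
    exact (((e1.inv (by simp [Q_zero])).mul e3).mul (e5.pow 5)).mul
      ((e15.pow 5).inv (by simp [Q_zero]))
  exact (QV.comp h1).of_val xi_zero

lemma phi_analytic : AnalyticAt ℂ phi 0 := by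
  have e1 := Qq_analytic 1 one_ne_zero
  have e3 := Qq_analytic 3 (by norm_num)
  have e5 := Qq_analytic 5 (by norm_num)
  have e15 := Qq_analytic 15 (by norm_num)
  simp only [pow_one] at e1
  exact ((e1.mul e3).mul e5).mul e15

lemma QV_phi : QV (fun z => phi (qq z)) 1 := (QV.comp phi_analytic).of_val phi_zero

/-- the leading term of `Y1` -/
lemma QV_Y1 (hq : S_QEXP) : QV (fun z => qq z ^ 3 * Y1 z) (-4) := by
  obtain ⟨Ξ, U, P, Θ, rΞ, rU, rP, tΞ, tU, tP, hΘ, tΘ⟩ := expansions hq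
  obtain ⟨th, rΘ, hth⟩ := exists_theta rΞ rU hΘ
  have h0 : th 0 = -4 := by
    have h1 := rΘ 0 (by simp)
    have h2 := hasSum_single (f := fun n : ℕ => PowerSeries.coeff n
      (PowerSeries.map (Int.castRingHom ℂ) Θ) * (0 : ℂ) ^ n) 0 (by
      intro n hn
      rw [zero_pow hn, mul_zero])
    have h3 := h1.unique h2
    rw [h3]
    have h4 := tΘ 0 (by norm_num)
    simp only [pow_zero, mul_one, PowerSeries.coeff_map]
    rw [h4]
    norm_num [lth]
  exact ((QV.comp rΘ.analyticAt_zero).of_val h0).of_eq (iI_pos.mono fun z hz => hth z hz)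

/-- the leading terms -/
lemma QV_N (hq : S_QEXP) :
    QV (fun z => qq z ^ 6 * (Y1 z ^ 2 - 18 * Y1 z + 81 + 28 * X1 z ^ 2)) 16 := by
  have hY := QV_Y1 hq
  refine ((((((hY.pow 2).sub ((QV.const 18).mul ((QV.qq'.pow 3).mul hY))).add
    ((QV.const 81).mul (QV.qq'.pow 6))).add ((QV.const 28).mul ((QV.qq'.mul QV_xi).pow 2)))).of_eq
    (iI_pos.mono fun z hz => ?_)).of_val (by norm_num)
  rw [← qq_X1 hz]
  ring

lemma QV_XD : QV (fun z => qq z ^ 6 * (16 * (X1 z * (X1 z ^ 2 - 9)))) 16 := by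
  refine (((QV.const 16).mul (QV_xi.mul ((QV_xi.pow 2).sub ((QV.const 9).mul
    (QV.qq'.pow 4))))).of_eq (iI_pos.mono fun z hz => ?_)).of_val (by norm_num)
  rw [← qq_X1 hz]
  ring

/-- the equation of the curve -/
theorem curve (hcp : S_CP) (hq : S_QEXP) : ∀ z : ℂ, 0 < z.im →
    Y1 z ^ 2 - 18 * Y1 z + 81 + 28 * X1 z ^ 2 = 16 * (X1 z * (X1 z ^ 2 - 9)) := by
  have h0 := g1_zero hcp hq
  have h := mul_zero_or (f := fun z => (Y1 z ^ 2 - 18 * Y1 z + 81 + 28 * X1 z ^ 2) -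
      16 * (X1 z * (X1 z ^ 2 - 9))) (g := fun z => (Y1 z ^ 2 - 18 * Y1 z + 81 + 28 * X1 z ^ 2) +
      16 * (X1 z * (X1 z ^ 2 - 9))) (fun z hz => by
        have h1 := X1_diff hz
        have h2 := Y1_diff hz
        fun_prop) (fun z hz => by
        have h1 := X1_diff hz
        have h2 := Y1_diff hz
        fun_prop) (fun z hz => by
        have := h0 z hz
        unfold g1 at this
        linear_combination this)
  rcases h with h | h
  · intro z hz
    exact sub_eq_zero.1 (h z hz)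
  · exfalso
    have h1 := ((QV_N hq).add QV_XD).of_eq (f := fun _ => 0) (iI_pos.mono fun z hz => by
      have := h z hz
      linear_combination (-(qq z ^ 6)) * this)
    have h2 := h1.val_unique (QV.const 0)
    norm_num at h2

/-- the equation of the curve, second form -/
theorem curve' (hcp : S_CP) (hq : S_QEXP) {z : ℂ} (hz : 0 < z.im) :
    (V1 z - X1 z ^ 2 - 9) ^ 2 = 16 * X1 z ^ 3 - 28 * X1 z ^ 2 - 144 * X1 z := by
  have := curve hcp hq z hz
  unfold Y1 at this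
  linear_combination this

/-- `X1` is invariant -/
theorem X1_inv (hcp : S_CP) (hq : S_QEXP) : Inv X1 := by
  intro a b c d h
  have hm : ∀ z : ℂ, 0 < z.im → 0 < ((a * z + b) / (15 * c * z + d) : ℂ).im := fun z hz =>
    (G_gamma h hz).1
  have hc : ContinuousOn (fun z : ℂ => X1 ((a * z + b) / (15 * c * z + d))) {z : ℂ | 0 < z.im} := by
    refine X1_cont.comp ?_ hm
    intro z hz
    have := (G_gamma h hz).2.1
    exact ContinuousAt.continuousWithinAt (ContinuousAt.div (by fun_prop) (by fun_prop) this)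
  rcases eq_or_eq_neg hc X1_cont (fun z hz => X1_sq_gamma h hz) (fun z hz => X1_ne hz) with h1 | h1
  · exact h1
  · exfalso
    have h2 : ∀ z : ℂ, 0 < z.im → Y1 z ^ 2 - 18 * Y1 z + 81 + 28 * X1 z ^ 2 = 0 := by
      intro z hz
      have h3 := curve hcp hq z hz
      have h4 := curve hcp hq _ (hm z hz)
      rw [h1 z hz, Y1_gamma h hz] at h4
      linear_combination (1 / 2 : ℂ) * h3 + (1 / 2 : ℂ) * h4
    have h3 := (QV_N hq).of_eq (f := fun _ => 0) (iI_pos.mono fun z hz => by rw [h2 z hz]; ring)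
    have h4 := h3.val_unique (QV.const 0)
    norm_num at h4

lemma curve_cusp (hcp : S_CP) (hq : S_QEXP) {m j : ℂ → ℂ} {x y : ℂ} (h : IsCusp m j x y) :
    (y - x ^ 2 - 9) ^ 2 = 16 * x ^ 3 - 28 * x ^ 2 - 144 * x := by
  have h1 := ((h.V.sub (h.X.pow 2)).sub (QV.const 9)).pow 2
  have h2 := (((QV.const 16).mul (h.X.pow 3)).sub ((QV.const 28).mul (h.X.pow 2))).sub
    ((QV.const 144).mul h.X)
  refine h1.val_unique (h2.of_eq (iI_pos.mono fun z hz => ?_))
  exact curve' hcp hq (h.pos z hz)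

theorem isCusp15 (hcp : S_CP) (hq : S_QEXP) : IsCusp m15 j15 9 0 := by
  rcases cusp15 with h | h
  · exact h
  · exfalso
    have := curve_cusp hcp hq h
    norm_num at this

theorem isCusp5 (hcp : S_CP) (hq : S_QEXP) : IsCusp m5 j5 (-1) 0 := by
  rcases cusp5 with h | h
  · exfalso
    have := curve_cusp hcp hq h
    norm_num at this
  · exact h

/-- `dx / (2πi f dz)` -/
noncomputable def R0 (z : ℂ) : ℂ := deriv X1 z / (2 * Real.pi * Complex.I * ff z)

lemma R0_diff {z : ℂ} (hz : 0 < z.im) : DifferentiableAt ℂ R0 z := by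
  have h1 : DifferentiableOn ℂ X1 {z : ℂ | 0 < z.im} := fun w hw =>
    (X1_diff hw).differentiableWithinAt
  have h2 := (h1.deriv H_open).differentiableAt (H_open.mem_nhds hz)
  exact h2.div ((ff_diff hz).const_mul _) (mul_ne_zero tpi_ne (ff_ne hz))

lemma hasDerivAt_gamma {a b c d : ℤ} (h : a * d - b * (15 * c) = 1) {z : ℂ} (hz : 0 < z.im) :
    HasDerivAt (fun z : ℂ => (a * z + b) / (15 * c * z + d)) (((15 * c * z + d) ^ 2)⁻¹) z := by
  have h0 := (G_gamma h hz).2.1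
  have h1 : HasDerivAt (fun w : ℂ => (a : ℂ) * w + b) a z := by
    simpa using ((hasDerivAt_id z).const_mul (a : ℂ)).add_const (b : ℂ)
  have h2 : HasDerivAt (fun w : ℂ => 15 * (c : ℂ) * w + d) (15 * c) z := by
    simpa using ((hasDerivAt_id z).const_mul (15 * (c : ℂ))).add_const (d : ℂ)
  refine (h1.div h2 h0).congr_deriv ?_
  have h3 : (a : ℂ) * d - b * (15 * c) = 1 := by exact_mod_cast h
  field_simp
  linear_combination h3

/-- the derivative of `X1` is of weight two -/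
lemma deriv_X1_gamma (hcp : S_CP) (hq : S_QEXP) {a b c d : ℤ} (h : a * d - b * (15 * c) = 1)
    {z : ℂ} (hz : 0 < z.im) :
    deriv X1 ((a * z + b) / (15 * c * z + d)) = (15 * c * z + d) ^ 2 * deriv X1 z := by
  have h0 := (G_gamma h hz).2.1
  have hm := (G_gamma h hz).1
  have h1 := (X1_diff hm).hasDerivAt.comp z (hasDerivAt_gamma h hz)
  have h2 : X1 ∘ (fun z : ℂ => (a * z + b) / (15 * c * z + d)) =ᶠ[𝓝 z] X1 := by
    filter_upwards [H_open.mem_nhds hz] with w hw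
    exact X1_inv hcp hq a b c d h w hw
  have h3 := (h1.congr_of_eventuallyEq h2.symm).deriv
  rw [h3, mul_comm (deriv X1 _), ← mul_assoc, mul_inv_cancel₀ (pow_ne_zero 2 h0), one_mul]

/-- the function comparing `R0²` with the cubic -/
noncomputable def g2 (z : ℂ) : ℂ := R0 z ^ 2 - (4 * X1 z ^ 3 - 7 * X1 z ^ 2 - 36 * X1 z)

lemma g2_diff {z : ℂ} (hz : 0 < z.im) : DifferentiableAt ℂ g2 z := by
  have h1 := X1_diff hz
  have h2 := R0_diff hz
  unfold g2
  fun_prop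

lemma g2_inv (hcp : S_CP) (hq : S_QEXP) : Inv g2 := by
  intro a b c d h z hz
  have h0 := (G_gamma h hz).2.1
  have hf := ff_ne hz
  unfold g2 R0
  rw [X1_inv hcp hq a b c d h z hz, deriv_X1_gamma hcp hq h hz, div_pow, mul_pow _ (ff _),
    ff_sq_gamma h hz]
  congr 1
  field_simp

/-- `R0²` at a cusp -/
lemma R0_cusp {m j : ℂ → ℂ} {x y : ℂ} (h : IsCusp m j x y) :
    ∃ v, QV (fun z => R0 (m z) ^ 2) v := by
  obtain ⟨k, hk, h1⟩ := h.X.deriv'
  refine ⟨_, (((QV.comp hk).mul (QV_phi.inv one_ne_zero)).pow 2).of_eq ?_⟩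
  filter_upwards [h1, iI_pos] with z hz hp
  have h2 := (X1_diff (h.pos z hp)).hasDerivAt.comp z (h.der z hp)
  have h3 := h2.unique hz
  have h4 := h.ffj z hp
  have hf := ff_ne hp
  have hj := h.jne z hp
  have hfm := ff_ne (h.pos z hp)
  have hq := qq_ne z
  have hph : phi (qq z) ≠ 0 := by
    intro h0
    rw [ff_q, h0, mul_zero] at hf
    exact hf rfl
  have h5 : R0 (m z) ^ 2 = (deriv X1 (m z) * j z) ^ 2 / ((2 * Real.pi * Complex.I) ^ 2 *
      (ff (m z) * j z) ^ 2) := by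
    unfold R0
    field_simp
  have hI : (Complex.I : ℂ) ≠ 0 := Complex.I_ne_zero
  have hpi : (Real.pi : ℂ) ≠ 0 := by exact_mod_cast Real.pi_ne_zero
  rw [h5, h3, h4, ff_q]
  field_simp

lemma g2_cusp {m j : ℂ → ℂ} {x y : ℂ} (h : IsCusp m j x y) : ∃ v, QV (fun z => g2 (m z)) v := by
  obtain ⟨v, hv⟩ := R0_cusp h
  exact ⟨_, hv.sub ((((QV.const 4).mul (h.X.pow 3)).sub ((QV.const 7).mul (h.X.pow 2))).sub
    ((QV.const 36).mul h.X))⟩

/-- `R0` in terms of `q` -/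
lemma R0_q {Ξ : PowerSeries ℤ} (hΞ : W97.MT.Rep xi Ξ) {z : ℂ} (hz : 0 < z.im) :
    qq z ^ 3 * (R0 z * phi (qq z)) = qq z * deriv xi (qq z) - 2 * xi (qq z) := by
  have hx : DifferentiableAt ℂ xi (qq z) :=
    (RepC.differentiableOn hΞ).differentiableAt (Metric.isOpen_ball.mem_nhds
      (by simpa using norm_qq_lt hz))
  have hq := qq_ne z
  have h1 := (hx.hasDerivAt.comp z (hasDerivAt_qq z)).div ((hasDerivAt_qq z).pow 2)
    (pow_ne_zero 2 hq)
  have h2 : X1 =ᶠ[𝓝 z] (xi ∘ qq) / (qq ^ 2) := by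
    filter_upwards [H_open.mem_nhds hz] with w hw
    exact X1_q hw
  have h3 := (h1.congr_of_eventuallyEq h2).deriv
  have hf := ff_ne hz
  have hph : phi (qq z) ≠ 0 := by
    intro h0
    rw [ff_q, h0, mul_zero] at hf
    exact hf rfl
  have hI : (Complex.I : ℂ) ≠ 0 := Complex.I_ne_zero
  have hpi : (Real.pi : ℂ) ≠ 0 := by exact_mod_cast Real.pi_ne_zero
  unfold R0
  rw [h3, ff_q]
  simp only [Function.comp_apply, Pi.pow_apply]
  field_simp
  push_cast
  ring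

theorem g2_zero (hcp : S_CP) (hq : S_QEXP) : ∀ z : ℂ, 0 < z.im → g2 z = 0 := by
  obtain ⟨Ξ, U, P, Θ, rΞ, rU, rP, tΞ, tU, tP, hΘ, tΘ⟩ := expansions hq
  obtain ⟨v15, h15⟩ := g2_cusp (isCusp15 hcp hq)
  obtain ⟨v5, h5⟩ := g2_cusp (isCusp5 hcp hq)
  obtain ⟨v3, h3⟩ := g2_cusp cusp3
  have hid := identity_two tΞ tP
  rw [num 2, num 4, num 7, num 36] at hid
  have hrep := ((rΞ.theta.sub ((Rep.C 2).mul rΞ)).pow 2).sub ((rP.pow 2).mul
    ((((Rep.C 4).mul (rΞ.pow 3)).sub ((Rep.C 7).mul ((Rep.X.mul rΞ).pow 2))).sub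
    ((Rep.C 36).mul ((Rep.X.pow 4).mul rΞ))))
  have h0 : QV (fun z => phi (qq z) ^ 2 * g2 z) 0 := by
    refine QV_zero_of_dvd (m := 6) hrep (dvd_trans (pow_dvd_pow _ (by norm_num)) hid) ?_
    intro z hz
    unfold g2
    push_cast
    rw [← R0_q rΞ hz, ← qq_X1 hz]
    ring
  have h0' : QV g2 0 := by
    refine ((((QV_phi.pow 2).inv (by norm_num)).mul h0).of_eq (iI_pos.mono fun z hz => ?_)).of_val
      (by simp)
    have hf := ff_ne hz
    have hph : phi (qq z) ≠ 0 := by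
      intro h0
      rw [ff_q, h0, mul_zero] at hf
      exact hf rfl
    field_simp
  exact cp_zero hcp (fun z hz => g2_diff hz) (g2_inv hcp hq) h0' h15 h5 h3

lemma QV_R {Ξ : PowerSeries ℤ} (hΞ : W97.MT.Rep xi Ξ) : QV (fun z => qq z ^ 3 * R0 z) (-2) := by
  have h1 : AnalyticAt ℂ (deriv xi) 0 := hΞ.analyticAt_zero.deriv
  refine ((((QV.qq'.mul (QV.comp h1)).sub ((QV.const 2).mul QV_xi)).mul
    (QV_phi.inv one_ne_zero)).of_eq (iI_pos.mono fun z hz => ?_)).of_val (by norm_num)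
  have hf := ff_ne hz
  have hph : phi (qq z) ≠ 0 := by
    intro h0
    rw [ff_q, h0, mul_zero] at hf
    exact hf rfl
  rw [← R0_q hΞ hz]
  field_simp

/-- `2y + x + 1` -/
noncomputable def RR (z : ℂ) : ℂ := (Y1 z - 9) / 2

lemma RR_diff {z : ℂ} (hz : 0 < z.im) : DifferentiableAt ℂ RR z := by
  have h2 := Y1_diff hz
  unfold RR
  fun_prop

lemma QV_RR (hq : S_QEXP) : QV (fun z => qq z ^ 3 * RR z) (-2) := by
  refine (((QV.const (1 / 2)).mul ((QV_Y1 hq).sub ((QV.const 9).mul (QV.qq'.pow 3)))).of_eq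
    (iI_pos.mono fun z hz => ?_)).of_val (by norm_num)
  unfold RR
  ring

lemma RR_sq (hcp : S_CP) (hq : S_QEXP) {z : ℂ} (hz : 0 < z.im) :
    RR z ^ 2 = 4 * X1 z ^ 3 - 7 * X1 z ^ 2 - 36 * X1 z := by
  have := curve' hcp hq hz
  unfold RR Y1
  linear_combination (1 / 4 : ℂ) * this

/-- the differential -/
theorem R0_eq (hcp : S_CP) (hq : S_QEXP) : ∀ z : ℂ, 0 < z.im → R0 z = RR z := by
  obtain ⟨Ξ, U, P, Θ, rΞ, rU, rP, tΞ, tU, tP, hΘ, tΘ⟩ := expansions hq
  have h := mul_zero_or (f := fun z => R0 z - RR z) (g := fun z => R0 z + RR z) (fun z hz => by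
        have h1 := R0_diff hz
        have h2 := RR_diff hz
        fun_prop) (fun z hz => by
        have h1 := R0_diff hz
        have h2 := RR_diff hz
        fun_prop) (fun z hz => by
        have h1 := g2_zero hcp hq z hz
        have h2 := RR_sq hcp hq hz
        unfold g2 at h1
        linear_combination h1 - h2)
  rcases h with h | h
  · intro z hz
    exact sub_eq_zero.1 (h z hz)
  · exfalso
    have h1 := ((QV_R rΞ).add (QV_RR hq)).of_eq (f := fun _ => 0) (iI_pos.mono fun z hz => by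
      have := h z hz
      linear_combination (-(qq z ^ 3)) * this)
    have h2 := h1.val_unique (QV.const 0)
    norm_num at h2

theorem deriv_X1 (hcp : S_CP) (hq : S_QEXP) {z : ℂ} (hz : 0 < z.im) :
    deriv X1 z = 2 * Real.pi * Complex.I * ff z * RR z := by
  rw [← R0_eq hcp hq z hz]
  unfold R0
  rw [mul_div_cancel₀ _ (mul_ne_zero tpi_ne (ff_ne hz))]

/-- `ff` is of weight two -/
theorem ff_gamma (hcp : S_CP) (hq : S_QEXP) {a b c d : ℤ} (h : a * d - b * (15 * c) = 1) :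
    ∀ z : ℂ, 0 < z.im → ff ((a * z + b) / (15 * c * z + d)) = (15 * c * z + d) ^ 2 * ff z := by
  have hm : ∀ z : ℂ, 0 < z.im → 0 < ((a * z + b) / (15 * c * z + d) : ℂ).im := fun z hz =>
    (G_gamma h hz).1
  have hc : ContinuousOn (fun z : ℂ => ff ((a * z + b) / (15 * c * z + d))) {z : ℂ | 0 < z.im} := by
    refine ff_cont.comp ?_ hm
    intro z hz
    have := (G_gamma h hz).2.1
    exact ContinuousAt.continuousWithinAt (ContinuousAt.div (by fun_prop) (by fun_prop) this)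
  have hc' : ContinuousOn (fun z : ℂ => (15 * c * z + d) ^ 2 * ff z) {z : ℂ | 0 < z.im} :=
    (by fun_prop : Continuous fun z : ℂ => (15 * (c : ℂ) * z + d) ^ 2).continuousOn.mul ff_cont
  rcases eq_or_eq_neg hc hc' (fun z hz => by rw [ff_sq_gamma h hz]; ring)
    (fun z hz => mul_ne_zero (pow_ne_zero 2 (G_gamma h hz).2.1) (ff_ne hz)) with h1 | h1
  · exact h1
  · exfalso
    have h2 : ∀ z : ℂ, 0 < z.im → RR z = 0 := by
      intro z hz
      have h3 := deriv_X1 hcp hq hz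
      have h4 := deriv_X1 hcp hq (hm z hz)
      rw [deriv_X1_gamma hcp hq h hz, h1 z hz, h3] at h4
      have h5 : RR ((a * z + b) / (15 * c * z + d)) = RR z := by
        unfold RR
        rw [Y1_gamma h hz]
      rw [h5] at h4
      have h6 : (2 * Real.pi * Complex.I * ff z * (15 * c * z + d) ^ 2) * RR z = 0 := by
        linear_combination (1 / 2 : ℂ) * h4
      rcases mul_eq_zero.1 h6 with h7 | h7
      · exact absurd h7 (mul_ne_zero (mul_ne_zero tpi_ne (ff_ne hz))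
          (pow_ne_zero 2 (G_gamma h hz).2.1))
      · exact h7
    have h3 := (QV_RR hq).of_eq (f := fun _ => 0) (iI_pos.mono fun z hz => by rw [h2 z hz]; ring)
    have h4 := h3.val_unique (QV.const 0)
    norm_num at h4

/-- the sign at a cusp -/
lemma ff_cusp {m j : ℂ → ℂ} {x y : ℂ} (h : IsCusp m j x y) :
    ∃ ε : ℂ, (ε = 1 ∨ ε = -1) ∧ ∀ z : ℂ, 0 < z.im → ff (m z) * j z = ε * ff z := by
  have hc : ContinuousOn (fun z => ff (m z) * j z) {z : ℂ | 0 < z.im} :=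
    (comp_cont h.pos h.der ff_cont).mul h.jcont
  rcases eq_or_eq_neg hc ff_cont h.ffj (fun z hz => ff_ne hz) with h1 | h1
  · exact ⟨1, Or.inl rfl, fun z hz => by rw [h1 z hz]; ring⟩
  · exact ⟨-1, Or.inr rfl, fun z hz => by rw [h1 z hz]; ring⟩

end Pool.Agent.Run7.h741.MF
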