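import Pool.Agent.Run7.h741.MF.Fin
import Pool.Agent.TH940.Cen

/-!
The facts on the newform of level 15 needed for the `L`-functions of the twists.
-/

set_option autoImplicit false

open UpperHalfPlane MatrixGroups CongruenceSubgroup Filter Topology MeasureTheory
open scoped ModularForm Pointwise

namespace Pool.Agent.Run7.h741.MF

open Pool.Agent.W97.TW
open Pool.Agent.W97.MT (qq qq_ne norm_qq norm_qq_lt im_mul z_ne H_open QV iI iI_pos iI_eventually tendsto_qq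
  S_QEXP S_INJ S_ODE S_SUB hasDerivAt_qq tpi_ne line_im line_re inv_I im_aux exists_qq dslope_analytic
  qParam_one cusp_expansion ap affCount Tr prim const_of_deriv)

/-- all the facts on the coefficients that come from the `q`-expansion -/
theorem facts (htors : S_TORS) (hlat : S_LAT) :
    (∀ n : ℕ, ∃ c : ℤ, (qExpansion 1 form15).coeff n = (c : ℂ)) ∧
    (qExpansion 1 form15).coeff 1 = 1 ∧
    (∀ l : ℕ, l.Prime → (qExpansion 1 form15).coeff l = (ap E15 l : ℂ)) ∧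
    (∀ (p : ℕ), p.Prime → ∀ z : ℍ, heckeT 15 2 p form15 z = (ap E15 p : ℂ) * form15 z) := by
  obtain ⟨L, Op, Om, hOp, hOm, g2, g3, hL⟩ := hlat
  obtain ⟨Ξ, U, P, Θ, rΞ, rU, rP, tΞ, tU, tP, hΘ, tΘ⟩ := expansions hqe
  have hP0 : PowerSeries.coeff 0 P = 1 := by
    rw [tP 0 (by norm_num)]; rfl
  have hcoef : ∀ l : ℕ, l.Prime → PowerSeries.coeff (l - 1) P = ap E15 l := fun l hl =>
    coef_eq htors L g2 g3 rΞ rP tΞ tP hl
  refine ⟨fun n => ⟨_, coeff_f15 hcp hqe rP n⟩, ?_, ?_, ?_⟩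
  · have h1 := coeff_f15 hcp hqe rP 1
    change (qExpansion 1 (f15 hcp hqe)).coeff 1 = 1
    rw [h1, show (1 : ℕ) = 0 + 1 by rfl, PowerSeries.coeff_succ_X_mul, hP0]
    norm_num
  · intro l hl
    have h1 := coeff_f15 hcp hqe rP (l : ℕ)
    have h2 := hcoef l hl
    obtain ⟨m, hm⟩ : ∃ m, (l : ℕ) = m + 1 := ⟨l - 1, by have := hl.pos; omega⟩
    rw [hm] at h2
    rw [Nat.add_sub_cancel] at h2
    change (qExpansion 1 (f15 hcp hqe)).coeff (l : ℕ) = _
    rw [h1, hm, PowerSeries.coeff_succ_X_mul, h2]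
  · intro p hp z
    have h1 := hecke_f15 hcp hqe rP hP0 hp z
    rw [hcoef p hp] at h1
    have h6 : Pool.Agent.W97.MT.hecke 15 p form15 z = heckeT 15 2 p form15 z := by
      unfold Pool.Agent.W97.MT.hecke heckeT
      norm_num
    rw [← h6]
    exact h1

/-- the Fricke involution -/
theorem fricke : ∃ w : ℝ, (w = 1 ∨ w = -1) ∧ ∀ τ τ' : ℍ, (τ' : ℂ) * (((15 : ℕ) : ℂ) * (τ : ℂ)) = -1 →
    form15 τ' = -(w : ℂ) * ((15 : ℕ) : ℂ) * (τ : ℂ) ^ 2 * form15 τ := by
  obtain ⟨h1, h2, h3, h4, h5, h6⟩ := cusp15_core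
  obtain ⟨ε, hε, h⟩ := (IsMap.mk h1 h2 h3 h4 h5).sign
  have key : ∀ τ τ' : ℍ, (τ' : ℂ) * ((15 : ℂ) * (τ : ℂ)) = -1 →
      form15 τ' = ε * (15 : ℂ) * (τ : ℂ) ^ 2 * form15 τ := by
    intro τ τ' hτ
    have h0 : (τ : ℂ) ≠ 0 := z_ne τ.im_pos
    have e1 : (τ' : ℂ) = m15 τ := by
      unfold m15
      rw [eq_div_iff (mul_ne_zero (by norm_num) h0)]
      exact hτ
    have e2 := h τ τ.im_pos
    rw [← e1] at e2
    have e3 : form15 τ' = ff τ' := rfl
    have e4 : form15 τ = ff τ := rfl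
    rw [e3, e4]
    unfold j15 at e2
    have h15 : (15 * (τ : ℂ) ^ 2) ≠ 0 := mul_ne_zero (by norm_num) (pow_ne_zero 2 h0)
    rw [← div_eq_mul_inv, div_eq_iff h15] at e2
    rw [e2]
    ring
  rcases hε with rfl | rfl
  · refine ⟨-1, Or.inr rfl, fun τ τ' hτ => ?_⟩
    push_cast at hτ
    rw [key τ τ' hτ]
    push_cast
    ring
  · refine ⟨1, Or.inl rfl, fun τ τ' hτ => ?_⟩
    push_cast at hτ
    rw [key τ τ' hτ]
    push_cast
    ring

/-- the two primitives agree -/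
theorem prim_F {z : ℂ} (hz : 0 < z.im) : TH940.prim form15 z = F z := by
  obtain ⟨C, hC⟩ := const_of_deriv (g := fun z => TH940.prim form15 z - F z) fun z hz => by
    have e1 := TH940.prim_deriv form15 ⟨z, hz⟩
    have e2 := e1.sub (F_deriv hz)
    refine e2.congr_deriv ?_
    have e3 : form15 ⟨z, hz⟩ = ff z := rfl
    rw [e3]
    ring
  have h1 := TH940.prim_line form15 0
  have h2 : Tendsto (fun T : ℝ => F ((((0 : ℝ) : ℂ)) + (T : ℂ) * Complex.I)) atTop (𝓝 0) :=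
    F_line_tendsto ((0 : ℝ) : ℂ)
  have h3 := h1.sub h2
  rw [sub_zero] at h3
  have h4 : Tendsto (fun _ : ℝ => C) atTop (𝓝 0) := by
    refine h3.congr' ?_
    filter_upwards [eventually_gt_atTop 0] with T hT
    exact hC _ (by simpa using hT)
  have h5 := tendsto_nhds_unique h4 tendsto_const_nhds
  have h6 := hC z hz
  beta_reduce at h6
  rw [← h5] at h6
  exact sub_eq_zero.1 h6

/-- the limit at the rational number of an explicit matrix -/
lemma hit_lim {m j : ℂ → ℂ} (h : IsMap m j) {r : ℂ} {C : ℂ}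
    (hC : Tendsto (fun z => F (m z)) iI (𝓝 C)) {a b c d : ℤ}
    (hdet : a * d - b * (15 * c) = 1) {K x : ℝ} (hK : 0 < K) (he : ∀ s : ℝ, 0 < s →
      (a * m (x + s * Complex.I) + b) / (15 * c * m (x + s * Complex.I) + d) =
      r + ((K * s)⁻¹ : ℝ) * Complex.I) :
    Tendsto (fun t : ℝ => F (r + t * Complex.I)) (𝓝[>] 0) (𝓝 (C + per a b c d)) := by
  have hinv : ∀ t : ℝ, 0 < t → (K * (K * t)⁻¹)⁻¹ = t := fun t ht => by field_simp
  have ht : Tendsto (fun t : ℝ => (x : ℂ) + ((K * t)⁻¹ : ℝ) * Complex.I) (𝓝[>] 0) iI := by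
    unfold iI
    rw [tendsto_comap_iff]
    have e : Complex.im ∘ (fun t : ℝ => (x : ℂ) + ((K * t)⁻¹ : ℝ) * Complex.I) =
        fun t : ℝ => K⁻¹ * t⁻¹ := by
      ext t; simp [mul_comm]
    rw [e]
    exact tendsto_inv_nhdsGT_zero.const_mul_atTop (inv_pos.2 hK)
  have h1 := (hC.comp ht).add_const (per a b c d)
  refine h1.congr' ?_
  filter_upwards [self_mem_nhdsWithin] with t ht
  have ht0 : (0 : ℝ) < t := ht
  have hs0 : 0 < (K * t)⁻¹ := by positivity
  have h2 := he _ hs0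
  rw [hinv t ht0] at h2
  rw [← h2, per_spec hdet (h.pos _ (by simpa using hs0))]
  rfl

/-- the boundary values of the primitive -/
theorem F_lim {u n : ℤ} (hn : 0 < n) (hun : IsCoprime u n) (h3 : IsCoprime n 15) :
    Tendsto (fun t : ℝ => F ((u : ℂ) / n + t * Complex.I)) (𝓝[>] 0) (𝓝 (II ((u : ℚ) / n))) := by
  have h1 : IsCoprime (15 * u) n := (h3.symm).mul_left hun
  obtain ⟨w, y, hwy⟩ := h1
  have hdet : 15 * u * w - n * (-y) = 1 := by linarith
  rw [II_eq hn hdet]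
  exact hit_lim (isCusp15 hcp hqe).map (r := (u : ℂ) / n) (a := -(-y)) (b := u) (c := -w) (d := n)
    (K := 15 * (n : ℝ) ^ 2) (x := -w / n) C0_lim (by linarith) (by positivity)
    (fun s hs => hit15_id hn hdet s hs)

theorem prim_lim {u n : ℤ} (hn : 0 < n) (hun : IsCoprime u n) (h3 : IsCoprime n 15) :
    Tendsto (fun t : ℝ => TH940.prim form15 ((u : ℂ) / n + t * Complex.I)) (𝓝[>] 0)
      (𝓝 (II ((u : ℚ) / n))) := by
  refine (F_lim hn hun h3).congr' ?_
  filter_upwards [self_mem_nhdsWithin] with t ht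
  have ht0 : (0 : ℝ) < t := ht
  refine (prim_F ?_).symm
  rw [line_im]
  have : ((u : ℂ) / n) = (((u : ℝ) / n : ℝ) : ℂ) := by push_cast; rfl
  rw [this, Complex.ofReal_im]
  linarith

end Pool.Agent.Run7.h741.MF
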