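import Pool.Agent.Run7.h741.MF.Ident
import Pool.Agent.W97.MT.Prim

/-!
The primitive of the form and its integrals.
-/

set_option autoImplicit false

open Filter Topology MeasureTheory Set

namespace Pool.Agent.Run7.h741.MF

open Pool.Agent.W97.TW
open Pool.Agent.W97.MT (qq tt tt_ne qq_ne tt_pow norm_qq norm_qq_lt eta_mul eta_one G_mul Q_ne
  Q_ne_pow G_ne im_mul z_ne H_open eta_diff QV QV_Q QV_Q1 QV_of_sq Q_contOn Q_contOn1 qq_cont
  comp_cont iI iI_pos S_QEXP RepC QV_zero_of_dvd mul_zero_or Qq_analytic hasDerivAt_qq tpi_ne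
  eq_or_eq_neg Qd_diff const_of_deriv line_im line_re)

lemma phi_diff : DifferentiableOn ℂ phi (Metric.ball 0 1) :=
  ((Q_diff.mul (Qd_diff 3 (by norm_num))).mul (Qd_diff 5 (by norm_num))).mul
    (Qd_diff 15 (by norm_num))

lemma exists_Phi : ∃ Φ : ℂ → ℂ, Φ 0 = 0 ∧ ∀ q : ℂ, ‖q‖ < 1 → HasDerivAt Φ (phi q) q := by
  obtain ⟨g, h0, hg⟩ := phi_diff.isExactOn_ball.with_val_at 0 0
  exact ⟨g, h0, fun q hq => hg q (by simpa using hq)⟩

/-- the primitive of `phi` -/
noncomputable def Phi : ℂ → ℂ := exists_Phi.choose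

lemma Phi_zero : Phi 0 = 0 := exists_Phi.choose_spec.1

lemma Phi_deriv {q : ℂ} (hq : ‖q‖ < 1) : HasDerivAt Phi (phi q) q := exists_Phi.choose_spec.2 q hq

lemma Phi_diff : DifferentiableOn ℂ Phi (Metric.ball 0 1) := fun q hq =>
  (Phi_deriv (by simpa using hq)).differentiableAt.differentiableWithinAt

lemma Phi_analytic : AnalyticAt ℂ Phi 0 := Phi_diff.analyticAt (Metric.ball_mem_nhds _ one_pos)

/-- the primitive of `2πi ff` -/
noncomputable def F (z : ℂ) : ℂ := Phi (qq z)

lemma F_deriv {z : ℂ} (hz : 0 < z.im) : HasDerivAt F (2 * Real.pi * Complex.I * ff z) z := by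
  refine ((Phi_deriv (norm_qq_lt hz)).comp z (hasDerivAt_qq z)).congr_deriv ?_
  rw [ff_q]; ring

lemma F_QV : QV F 0 := (QV.comp Phi_analytic).of_val Phi_zero

lemma F_diff {z : ℂ} (hz : 0 < z.im) : DifferentiableAt ℂ F z := (F_deriv hz).differentiableAt

/-- a change of variable multiplying the form by a constant -/
structure IsMap (m j : ℂ → ℂ) : Prop where
  pos : ∀ z : ℂ, 0 < z.im → 0 < (m z).im
  der : ∀ z : ℂ, 0 < z.im → HasDerivAt m (j z) z
  jne : ∀ z : ℂ, 0 < z.im → j z ≠ 0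
  jcont : ContinuousOn j {z : ℂ | 0 < z.im}
  ffj : ∀ z : ℂ, 0 < z.im → (ff (m z) * j z) ^ 2 = ff z ^ 2

lemma IsCusp.map {m j : ℂ → ℂ} {x y : ℂ} (h : IsCusp m j x y) : IsMap m j :=
  ⟨h.pos, h.der, h.jne, h.jcont, h.ffj⟩

lemma idMap : IsMap (fun z => z) (fun _ => 1) where
  pos := fun _ h => h
  der := fun z _ => hasDerivAt_id z
  jne := fun _ _ => one_ne_zero
  jcont := continuousOn_const
  ffj := fun _ _ => by rw [mul_one]

section map

variable {m j : ℂ → ℂ} (h : IsMap m j)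
include h

lemma IsMap.sign : ∃ ε : ℂ, (ε = 1 ∨ ε = -1) ∧ ∀ z : ℂ, 0 < z.im → ff (m z) * j z = ε * ff z := by
  have hc : ContinuousOn (fun z => ff (m z) * j z) {z : ℂ | 0 < z.im} :=
    (comp_cont h.pos h.der ff_cont).mul h.jcont
  rcases eq_or_eq_neg hc ff_cont h.ffj (fun z hz => ff_ne hz) with h1 | h1
  · exact ⟨1, Or.inl rfl, fun z hz => by rw [h1 z hz]; ring⟩
  · exact ⟨-1, Or.inr rfl, fun z hz => by rw [h1 z hz]; ring⟩

lemma IsMap.const : ∃ ε C : ℂ, (ε = 1 ∨ ε = -1) ∧
    (∀ z : ℂ, 0 < z.im → ff (m z) * j z = ε * ff z) ∧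
    ∀ z : ℂ, 0 < z.im → F (m z) = ε * F z + C := by
  obtain ⟨ε, hε, h1⟩ := h.sign
  obtain ⟨C, hC⟩ := const_of_deriv (g := fun z => F (m z) - ε * F z) fun z hz => by
    have h2 := ((F_deriv (h.pos z hz)).comp z (h.der z hz)).sub ((F_deriv hz).const_mul ε)
    refine h2.congr_deriv ?_
    linear_combination (2 * Real.pi * Complex.I) * h1 z hz
  refine ⟨ε, C, hε, h1, fun z hz => ?_⟩
  linear_combination hC z hz

end map

/-- the additive constants for `Γ_0(15)` -/
lemma F_gamma (hcp : S_CP) (hq : S_QEXP) {a b c d : ℤ} (h : a * d - b * (15 * c) = 1) :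
    ∃ p : ℂ, ∀ z : ℂ, 0 < z.im → F ((a * z + b) / (15 * c * z + d)) = F z + p := by
  obtain ⟨C, hC⟩ := const_of_deriv (g := fun z => F ((a * z + b) / (15 * c * z + d)) - F z)
    fun z hz => by
      have h2 := ((F_deriv (G_gamma h hz).1).comp z (hasDerivAt_gamma h hz)).sub (F_deriv hz)
      refine h2.congr_deriv ?_
      have h0 := (G_gamma h hz).2.1
      rw [ff_gamma hcp hq h z hz]
      field_simp
      ring
  exact ⟨C, fun z hz => by linear_combination hC z hz⟩

/-- exponential decay -/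
lemma ff_bound {y : ℝ} (hy : 0 < y) : ∃ C : ℝ, 0 ≤ C ∧ ∀ z : ℂ, y ≤ z.im →
    ‖ff z‖ ≤ C * Real.exp (-(2 * Real.pi) * z.im) := by
  have hpi := Real.pi_pos
  have hr : Real.exp (-2 * Real.pi * y) < 1 := by
    rw [Real.exp_lt_one_iff]; nlinarith [mul_pos hpi hy]
  have hc : ContinuousOn phi (Metric.closedBall 0 (Real.exp (-2 * Real.pi * y))) :=
    phi_diff.continuousOn.mono (Metric.closedBall_subset_ball hr)
  obtain ⟨C, hC⟩ := (isCompact_closedBall (0 : ℂ) _).exists_bound_of_continuousOn hc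
  refine ⟨max C 0, le_max_right _ _, fun z hz => ?_⟩
  rw [ff_q, norm_mul, norm_qq, mul_comm]
  have h1 : ‖phi (qq z)‖ ≤ max C 0 := by
    refine (hC (qq z) ?_).trans (le_max_left _ _)
    rw [mem_closedBall_zero_iff, norm_qq]
    exact Real.exp_le_exp.2 (by nlinarith [mul_le_mul_of_nonneg_left hz hpi.le])
  have e : -2 * Real.pi * z.im = -(2 * Real.pi) * z.im := by ring
  rw [e]
  exact mul_le_mul_of_nonneg_right h1 (Real.exp_pos _).le

lemma ff_line_cont (z : ℂ) {a : ℝ} (h : 0 < z.im + a) :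
    ContinuousOn (fun t : ℝ => ff (z + t * Complex.I)) (Ici a) := by
  refine ff_cont.comp (by fun_prop) ?_
  intro t ht
  change 0 < (z + t * Complex.I).im
  rw [line_im]
  have : a ≤ t := ht
  linarith

/-- integrability near infinity -/
lemma ff_line_int (z : ℂ) {a : ℝ} (h : 0 < z.im + a) :
    IntegrableOn (fun t : ℝ => ff (z + t * Complex.I)) (Ioi a) := by
  obtain ⟨C, hC0, hC⟩ := ff_bound h
  have hpi := Real.pi_pos
  have hcont := ff_line_cont z h
  refine Integrable.mono' (g := fun t : ℝ => C * Real.exp (-(2 * Real.pi) * z.im) *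
    Real.exp (-(2 * Real.pi) * t)) ?_ ?_ ?_
  · exact ((exp_neg_integrableOn_Ioi a (by positivity : 0 < 2 * Real.pi)).const_mul _)
  · exact (hcont.mono Ioi_subset_Ici_self).aestronglyMeasurable measurableSet_Ioi
  · refine (ae_restrict_mem measurableSet_Ioi).mono fun t ht => ?_
    have ht' : a < t := ht
    refine (hC (z + t * Complex.I) (by rw [line_im]; linarith)).trans (le_of_eq ?_)
    rw [line_im, mul_assoc, ← Real.exp_add]
    ring_nf

lemma F_line_deriv (z : ℂ) {t : ℝ} (ht : 0 < z.im + t) :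
    HasDerivAt (fun t : ℝ => F (z + t * Complex.I)) (-(2 * Real.pi) * ff (z + t * Complex.I)) t := by
  have h1 : HasDerivAt (fun t : ℝ => z + (t : ℂ) * Complex.I) Complex.I t := by
    have := ((Complex.ofRealCLM.hasDerivAt (x := t)).mul_const Complex.I).const_add z
    simpa using this
  have h2 : HasDerivAt F _ (z + t * Complex.I) := F_deriv (by rw [line_im]; exact ht)
  refine (h2.comp t h1).congr_deriv ?_
  linear_combination (2 * Real.pi * ff (z + t * Complex.I)) * Complex.I_mul_I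

lemma F_line_tendsto (z : ℂ) : Tendsto (fun t : ℝ => F (z + t * Complex.I)) atTop (𝓝 0) := by
  refine F_QV.tendsto.comp ?_
  unfold iI
  rw [tendsto_comap_iff]
  have : Complex.im ∘ (fun t : ℝ => z + (t : ℂ) * Complex.I) = fun t => z.im + t := by
    ext t; exact line_im z t
  rw [this]
  exact tendsto_atTop_add_const_left _ _ tendsto_id

/-- the integral from a point of the upper half-plane or from a good rational -/
lemma integral_line (z : ℂ) (hz : 0 ≤ z.im) {C : ℂ}
    (hint : IntegrableOn (fun t : ℝ => ff (z + t * Complex.I)) (Ioi 0))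
    (hlim : Tendsto (fun t : ℝ => F (z + t * Complex.I)) (𝓝[>] 0) (𝓝 C)) :
    2 * Real.pi * ∫ t in Ioi (0 : ℝ), ff (z + t * Complex.I) = C := by
  set g : ℝ → ℂ := Function.update (fun t : ℝ => F (z + t * Complex.I)) 0 C with hg
  have h1 : ContinuousWithinAt g (Ici 0) 0 := by
    rw [continuousWithinAt_update_same]
    convert hlim using 2
    ext t
    simp
  have h2 : ∀ t ∈ Ioi (0 : ℝ), HasDerivAt g (-(2 * Real.pi) * ff (z + t * Complex.I)) t := by
    intro t ht
    have ht' : 0 < t := ht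
    refine (F_line_deriv z (by linarith)).congr_of_eventuallyEq ?_
    filter_upwards [isOpen_Ioi.mem_nhds ht] with s hs
    have hs' : (0 : ℝ) < s := hs
    rw [hg, Function.update_of_ne hs'.ne']
  have h3 : Tendsto g atTop (𝓝 0) := by
    refine (F_line_tendsto z).congr' ?_
    filter_upwards [eventually_gt_atTop 0] with s hs
    rw [hg, Function.update_of_ne hs.ne']
  have h4 := integral_Ioi_of_hasDerivAt_of_tendsto h1 h2 (hint.const_mul _) h3
  have h5 : g 0 = C := by rw [hg, Function.update_self]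
  have h6 : (∫ t in Ioi (0 : ℝ), -(2 * Real.pi : ℂ) * ff (z + t * Complex.I)) =
      -(2 * Real.pi : ℂ) * ∫ t in Ioi (0 : ℝ), ff (z + t * Complex.I) := integral_const_mul _ _
  rw [h6, h5] at h4
  linear_combination -h4

end Pool.Agent.Run7.h741.MF
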