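import Pool.Agent.Run7.h741.MF.Asm0
import Pool.Agent.Run7.h741.P15.Val

/-!
The modular symbols of level `15`.
-/

set_option autoImplicit false

open Filter Topology MeasureTheory Set

namespace Pool.Agent.Run7.h741.MF

open Pool.Agent.W97.TW
open Pool.Agent.W97.MT (qq qq_ne norm_qq norm_qq_lt im_mul z_ne H_open QV iI iI_pos iI_eventually
  tendsto_qq S_QEXP S_INJ S_ODE S_SUB hasDerivAt_qq tpi_ne line_im line_re inv_I im_aux frac_aux
  qq_conj)
open Pool.Agent.Run7.h741.P15 (Hm hom_eq Fp_cusp0)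
open Pool.Agent.N969.P15 (Fp)

/-! ### the period homomorphism -/

/-- the period of the matrix `(a, b; 15 c, d)` -/
noncomputable def per (a b c d : ℤ) : ℂ :=
  F ((a * Complex.I + b) / (15 * c * Complex.I + d)) - F Complex.I

lemma I_pos : (0 : ℝ) < Complex.I.im := by simp

lemma per_spec {a b c d : ℤ} (h : a * d - b * (15 * c) = 1) {z : ℂ} (hz : 0 < z.im) :
    F ((a * z + b) / (15 * c * z + d)) = F z + per a b c d := by
  obtain ⟨p, hp⟩ := F_gamma hcp hqe h
  have h1 := hp _ I_pos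
  unfold per
  rw [h1, hp z hz]
  ring

lemma per_eq {a b c d : ℤ} {z p : ℂ} (h : a * d - b * (15 * c) = 1) (hz : 0 < z.im)
    (hp : F ((a * z + b) / (15 * c * z + d)) = F z + p) : per a b c d = p := by
  have := per_spec h hz
  rw [hp] at this
  exact (add_left_cancel this).symm

lemma det_mul {a b c d a' b' c' d' : ℤ} (h : a * d - b * (15 * c) = 1)
    (h' : a' * d' - b' * (15 * c') = 1) :
    (a * a' + b * (15 * c')) * (15 * c * b' + d * d') -
      (a * b' + b * d') * (15 * (c * a' + d * c')) = 1 := by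
  linear_combination (a' * d' - b' * (15 * c')) * h + h'

lemma per_mul {a b c d a' b' c' d' : ℤ} (h : a * d - b * (15 * c) = 1)
    (h' : a' * d' - b' * (15 * c') = 1) :
    per (a * a' + b * (15 * c')) (a * b' + b * d') (c * a' + d * c') (15 * c * b' + d * d') =
      per a b c d + per a' b' c' d' := by
  have hdet := det_mul h h'
  have hz := I_pos
  have h1 := (G_gamma h' hz).1
  have h2 := (G_gamma h' hz).2.1
  have e := per_spec h h1
  rw [per_spec h' hz] at e
  refine per_eq hdet hz ?_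
  rw [add_comm (per a b c d), ← add_assoc, ← e]
  congr 1
  push_cast
  rw [frac_aux _ _ h2, frac_aux _ _ h2, div_div_div_cancel_right₀ h2]
  congr 1 <;> ring

/-- the imaginary part -/
noncomputable def hI (a b c d : ℤ) : ℝ := (per a b c d).im

lemma hI_hm : Hm hI := by
  intro a b c d a' b' c' d' h h'
  unfold hI
  rw [per_mul h h', Complex.add_im]

lemma F_add_one (z : ℂ) : F (z + 1) = F z := by
  unfold F
  congr 1
  unfold qq
  rw [mul_add, Complex.exp_add, mul_one, Complex.exp_two_pi_mul_I, mul_one]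

lemma F_sub_one (z : ℂ) : F (z - 1) = F z := by
  have := F_add_one (z - 1)
  rw [sub_add_cancel] at this
  exact this.symm

lemma per_T : per 1 1 0 1 = 0 := by
  unfold per
  have : (((1 : ℤ) : ℂ) * Complex.I + ((1 : ℤ) : ℂ)) / (15 * ((0 : ℤ) : ℂ) * Complex.I + ((1 : ℤ) : ℂ)) =
      Complex.I + 1 := by
    push_cast; ring
  rw [this, F_add_one, sub_self]

/-- parabolic elements have no period -/
lemma per_par {m j : ℂ → ℂ} (hm : IsMap m j) {a b c d : ℤ} (h : a * d - b * (15 * c) = 1)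
    (he : (a * m Complex.I + b) / (15 * c * m Complex.I + d) = m (Complex.I - 1)) :
    per a b c d = 0 := by
  obtain ⟨ε, C, -, -, h1⟩ := hm.const
  have hz := I_pos
  have hz' : 0 < (Complex.I - 1).im := by simp
  refine per_eq h (hm.pos _ hz) ?_
  rw [he, h1 _ hz', h1 _ hz, F_sub_one, add_zero]

lemma per_0 : per 1 0 1 1 = 0 := by
  refine per_par (isCusp15 hcp hqe).map (by norm_num) ?_
  have hz := I_pos
  have h0 := z_ne hz
  have h1 : Complex.I - 1 ≠ 0 := z_ne (z := Complex.I - 1) (by simp)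
  unfold m15
  push_cast
  have e : (15 : ℂ) * 1 * (-1 / (15 * Complex.I)) + 1 = (Complex.I - 1) / Complex.I := by
    field_simp
    ring
  rw [e]
  field_simp
  ring

lemma par3 (z : ℂ) (h0 : 3 * z - 1 ≠ 0) (h1 : 3 * (z - 1) - 1 ≠ 0) :
    (16 * m5 z + -5) / (15 * 3 * m5 z + -14) = m5 (z - 1) := by
  unfold m5
  have e0 : 15 * z - 5 = 5 * (3 * z - 1) := by ring
  have e1 : 15 * (z - 1) - 5 = 5 * (3 * (z - 1) - 1) := by ring
  rw [e0, e1]
  have h0' : z * 3 - 1 ≠ 0 := by rwa [mul_comm]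
  have h1' : (z - 1) * 3 - 1 ≠ 0 := by rwa [mul_comm]
  have e : 15 * 3 * ((5 * z - 2) / (5 * (3 * z - 1))) + -14 = (3 * (z - 1) - 1) / (3 * z - 1) := by
    field_simp
    ring
  have e2 : 16 * ((5 * z - 2) / (5 * (3 * z - 1))) + -5 = (5 * (z - 1) - 2) / (5 * (3 * z - 1)) := by
    field_simp
    ring
  rw [e, e2]
  field_simp

lemma par5 (z : ℂ) (h0 : 5 * z + 2 ≠ 0) (h1 : 5 * (z - 1) + 2 ≠ 0) :
    (16 * m3 z + -3) / (15 * 5 * m3 z + -14) = m3 (z - 1) := by
  unfold m3
  have e0 : 15 * z + 6 = 3 * (5 * z + 2) := by ring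
  have e1 : 15 * (z - 1) + 6 = 3 * (5 * (z - 1) + 2) := by ring
  rw [e0, e1]
  have h0' : z * 5 + 2 ≠ 0 := by rwa [mul_comm]
  have h1' : (z - 1) * 5 + 2 ≠ 0 := by rwa [mul_comm]
  have e : 15 * 5 * ((3 * z + 1) / (3 * (5 * z + 2))) + -14 = (5 * (z - 1) + 2) / (5 * z + 2) := by
    field_simp
    ring
  have e2 : 16 * ((3 * z + 1) / (3 * (5 * z + 2))) + -3 = (3 * (z - 1) + 1) / (3 * (5 * z + 2)) := by
    field_simp
    ring
  rw [e, e2]
  field_simp

lemma per_3 : per 16 (-5) 3 (-14) = 0 := by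
  refine per_par (isCusp5 hcp hqe).map (by norm_num) ?_
  have h := par3 Complex.I (w5_aux I_pos) (w5_aux (z := Complex.I - 1) (by simp))
  push_cast
  exact h

lemma per_5 : per 16 (-3) 5 (-14) = 0 := by
  refine per_par cusp3.map (by norm_num) ?_
  have h := par5 Complex.I (w3_aux I_pos) (w3_aux (z := Complex.I - 1) (by simp))
  push_cast
  exact h

/-! ### complex conjugation -/

lemma phi_conj (q : ℂ) (hq : ‖q‖ < 1) : phi (starRingEnd ℂ q) = starRingEnd ℂ (phi q) := by
  obtain ⟨Ξ, U, P, Θ, rΞ, rU, rP, tΞ, tU, tP, hΘ, tΘ⟩ := expansions hqe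
  have h1 := rP (starRingEnd ℂ q) (by simpa using hq)
  have h2 := (rP q hq).map (starRingEnd ℂ) Complex.continuous_conj
  refine h1.unique (h2.congr_fun ?_ |> fun x => x)
  intro n
  simp only [Function.comp_apply, map_mul, map_pow, PowerSeries.coeff_map, eq_intCast]
  congr 1
  exact (map_intCast (starRingEnd ℂ) _).symm

lemma ff_conj {z : ℂ} (_hz : 0 < z.im) : ff (-(starRingEnd ℂ z)) = starRingEnd ℂ (ff z) := by
  rw [ff_q, ff_q, qq_conj, phi_conj _ (norm_qq_lt _hz), map_mul]

lemma F_int {z : ℂ} (hz : 0 < z.im) :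
    F z = 2 * Real.pi * ∫ t in Set.Ioi (0 : ℝ), ff (z + t * Complex.I) := by
  symm
  refine integral_line _ hz.le (ff_line_int _ (by rw [add_zero]; exact hz)) ?_
  have h1 : ContinuousAt (fun t : ℝ => F (z + t * Complex.I)) 0 := by
    refine ContinuousAt.comp (g := F) (f := fun t : ℝ => z + t * Complex.I) ?_ (by fun_prop)
    simp only [Complex.ofReal_zero, zero_mul, add_zero]
    exact (F_diff hz).continuousAt
  have h2 := h1.tendsto
  simp only [Complex.ofReal_zero, zero_mul, add_zero] at h2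
  exact h2.mono_left nhdsWithin_le_nhds

lemma conj_tpi : (starRingEnd ℂ) (2 * (Real.pi : ℂ)) = 2 * Real.pi := by
  rw [map_mul, Complex.conj_ofReal]
  congr 1
  exact Complex.conj_ofNat 2

lemma F_conj {z : ℂ} (hz : 0 < z.im) : F (-(starRingEnd ℂ z)) = starRingEnd ℂ (F z) := by
  have hz' : 0 < (-(starRingEnd ℂ z)).im := by simpa using hz
  rw [F_int hz', F_int hz, map_mul, ← integral_conj, conj_tpi]
  congr 1
  refine setIntegral_congr_fun measurableSet_Ioi fun t ht => ?_
  have ht' : 0 < t := ht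
  rw [← ff_conj (by rw [line_im]; linarith)]
  congr 1
  simp only [map_add, map_mul, Complex.conj_I, Complex.conj_ofReal]
  ring

lemma per_conj {a b c d : ℤ} (h : a * d - b * (15 * c) = 1) :
    per a (-b) (-c) d = starRingEnd ℂ (per a b c d) := by
  have hz : (0 : ℝ) < Complex.I.im := I_pos
  have hdet : a * d - (-b) * (15 * (-c)) = 1 := by linarith
  refine per_eq hdet hz ?_
  have h1 := (G_gamma h hz).1
  have h3 := F_conj h1
  rw [per_spec h hz, map_add, ← F_conj hz] at h3
  have e1 : -(starRingEnd ℂ) Complex.I = Complex.I := by simp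
  rw [e1] at h3
  rw [← h3]
  congr 1
  have e15 : (starRingEnd ℂ) (15 : ℂ) = 15 := Complex.conj_ofNat 15
  rw [map_div₀, map_add, map_add, map_mul, map_mul, map_mul, Complex.conj_I, e15]
  simp only [map_intCast]
  push_cast
  rw [← neg_div]
  congr 1 <;> ring

lemma hI_odd (a b c d : ℤ) (h : a * d - b * (15 * c) = 1) :
    hI a (-b) (-c) d = - hI a b c d := by
  unfold hI
  rw [per_conj h, Complex.conj_im]

/-- the constant -/
noncomputable def kappa : ℝ := hI 4 1 1 4

theorem hI_eq {a b c d : ℤ} (h : a * d - b * (15 * c) = 1) :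
    hI a b c d = kappa * (Fp a (15 * c) : ℝ) :=
  hom_eq hI_hm (by unfold hI; rw [per_T]; simp) (by unfold hI; rw [per_0]; simp)
    (by unfold hI; rw [per_3]; simp) (by unfold hI; rw [per_5]; simp) hI_odd a b c d h

end Pool.Agent.Run7.h741.MF
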